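import Pool.Agent.H.MP_b3c6db_nt.Defs

/-! Square-frequency cosine polynomials with non-negative coefficients. -/

namespace Pool.Agent.H.MP_b3c6db_nt

/-- `deltaPos H` is the infimum of the constant terms of the admissible polynomials with
`c k ≥ 0` for `1 ≤ k ≤ H`. -/
noncomputable def deltaPos (H : ℕ) : ℝ :=
  sInf {a : ℝ | ∃ c : ℕ → ℝ, Admissible H c ∧ (∀ k : ℕ, 1 ≤ k → k ≤ H → 0 ≤ c k) ∧ c 0 = a}

end Pool.Agent.H.MP_b3c6db_nt
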