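import Pool.Agent.H.MP_b3c6db_nt.SB.Cons

/-! The errors of the circle method with `σ = 1/400`, `B = e^(3J/2)`, `X = e^(5J)`, `D = e^(J/8000)`.

PROOF of `err_small`: `card² ≤ e^(J/4000)`. `errC = J (7 √(D e^J/X) + 2 √(2/B) + (e^(J/2)/√B + e^(-σJ/2)))`,
`√(D e^J/X) = e^((1/8000-4)J/2) ≤ e^(-J)`, `√(2/B) ≤ 2 e^(-3J/4)`, `e^(J/2)/√B = e^(-J/4)`, `e^(-σJ/2) = e^(-J/800)`, so
`errC ≤ 13 J e^(-J/800)` and `2 card² errC ≤ 26 J e^(-J/1000)`. `errT = J 2 (1+X) exp (-π (H/X)²)` with `H/X ≥ e^(5J)`: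
`≤ 4 J e^(5J) exp (-e^(10J)) ≤ e^(-J)/..`. Both are `≤ 1/(2J)` for large `J`. Third: `2 card² J e^((1/8000+1-5) J) ≤ 1/J`.
PROOF of `KK_good`: `KK_arg` with `σ = 1/400` (needs `402 ≤ J`, `3J/2 ≤ 2 (J - 402)`, i.e. `J ≥ 1608`), and
`KK_norm_le`: `∑_{m<J} e^(-m/400) ≤ 1/(1 - e^(-1/400)) ≤ 401` (`1 - e^{-v} ≥ v/(1+v)`). -/

set_option autoImplicit false

namespace Pool.Agent.H.MP_b3c6db_nt

open Finset Filter Topology

private lemma Err_ev : ∀ᶠ J : ℕ in atTop, 34 * (J : ℝ) ^ 2 * Real.exp (-(J / 1000)) ≤ 1 := by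
  have h1 := Real.tendsto_pow_mul_exp_neg_atTop_nhds_zero 2
  have h2 : Tendsto (fun J : ℕ => (J : ℝ) / 1000) atTop atTop :=
    tendsto_natCast_atTop_atTop.atTop_div_const (by norm_num)
  have h3 := h1.comp h2
  have h4 := h3.eventually (gt_mem_nhds (show (0 : ℝ) < 1 / 34000000 by norm_num))
  filter_upwards [h4] with J hJ
  simp only [Function.comp] at hJ
  have h5 : 34 * (J : ℝ) ^ 2 * Real.exp (-(J / 1000)) =
      34000000 * (((J : ℝ) / 1000) ^ 2 * Real.exp (-((J : ℝ) / 1000))) := by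
    ring
  rw [h5]
  linarith

theorem err_small : ∀ᶠ J : ℕ in atTop, ∀ H : ℕ, Real.exp (10 * J) ≤ H → ∀ card : ℝ, 0 ≤ card →
    card ≤ Real.exp (J / 8000) →
    2 * card ^ 2 * (errC (1 / 400) J (Real.exp (5 * J)) (Real.exp (3 / 2 * J)) (Real.exp (J / 8000)) +
      errT J (Real.exp (5 * J)) H) ≤ 1 / J ∧
    2 * card ^ 2 * (J * (Real.exp (J / 8000) * Real.exp J / Real.exp (5 * J))) ≤ 1 / J := by
  filter_upwards [Err_ev, eventually_ge_atTop 1] with J hJ hJ1 H hH card hc0 hc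
  have hJ0 : (1 : ℝ) ≤ J := by exact_mod_cast hJ1
  have hJp : (0 : ℝ) < J := by linarith
  have hc2 : card ^ 2 ≤ Real.exp (J / 4000) := by
    calc card ^ 2 ≤ Real.exp (J / 8000) ^ 2 := pow_le_pow_left₀ hc0 hc 2
      _ = Real.exp (J / 4000) := by
        rw [← Real.exp_nat_mul]
        congr 1
        push_cast
        ring
  have sq1 : ∀ t : ℝ, Real.sqrt (Real.exp t) = Real.exp (t / 2) := fun t => by
    rw [Real.sqrt_eq_rpow, ← Real.exp_mul]
    congr 1
    ring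
  have e1 : Real.sqrt (Real.exp (J / 8000) * Real.exp J / Real.exp (5 * J)) ≤
      Real.exp (-(J / 800)) := by
    rw [← Real.exp_add, ← Real.exp_sub, sq1]
    exact Real.exp_le_exp.2 (by linarith)
  have e2 : Real.sqrt (2 / Real.exp (3 / 2 * J)) ≤ 2 * Real.exp (-(J / 800)) := by
    have h1 : 2 / Real.exp (3 / 2 * J) ≤ 2 ^ 2 * Real.exp (-(3 / 2 * J)) := by
      rw [Real.exp_neg, div_eq_mul_inv]
      have := inv_pos.2 (Real.exp_pos (3 / 2 * (J : ℝ)))
      linarith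
    refine (Real.sqrt_le_sqrt h1).trans ?_
    rw [Real.sqrt_mul (by norm_num), Real.sqrt_sq (by norm_num), sq1]
    have : Real.exp (-(3 / 2 * (J : ℝ)) / 2) ≤ Real.exp (-(J / 800)) :=
      Real.exp_le_exp.2 (by linarith)
    linarith
  have e3 : Real.exp ((J : ℝ) / 2) / Real.sqrt (Real.exp (3 / 2 * J)) ≤ Real.exp (-(J / 800)) := by
    rw [sq1, ← Real.exp_sub]
    exact Real.exp_le_exp.2 (by linarith)
  have e4 : Real.exp (-(1 / 400 * (J : ℝ) / 2)) = Real.exp (-(J / 800)) := by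
    congr 1
    ring
  have hE : 0 < Real.exp (-((J : ℝ) / 800)) := Real.exp_pos _
  have h1 : errC (1 / 400) J (Real.exp (5 * J)) (Real.exp (3 / 2 * J)) (Real.exp (J / 8000)) ≤
      13 * (J * Real.exp (-(J / 800))) := by
    unfold errC
    rw [e4]
    have : (J : ℝ) * (7 * Real.sqrt (Real.exp (J / 8000) * Real.exp J / Real.exp (5 * J)) +
        2 * Real.sqrt (2 / Real.exp (3 / 2 * J)) +
        (Real.exp ((J : ℝ) / 2) / Real.sqrt (Real.exp (3 / 2 * J)) + Real.exp (-(J / 800)))) ≤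
        J * (13 * Real.exp (-(J / 800))) := mul_le_mul_of_nonneg_left (by linarith) hJp.le
    linarith
  have h2 : errT J (Real.exp (5 * J)) H ≤ 4 * (J * Real.exp (-(J / 800))) := by
    unfold errT
    have g1 : Real.exp (5 * J) ≤ (H : ℝ) / Real.exp (5 * J) := by
      rw [le_div_iff₀ (Real.exp_pos _), ← Real.exp_add]
      refine le_trans (Real.exp_le_exp.2 (by linarith)) hH
    have g2 : 10 * (J : ℝ) ≤ Real.pi * ((H : ℝ) / Real.exp (5 * J)) ^ 2 := by
      have g3 : Real.exp (5 * J) ^ 2 ≤ ((H : ℝ) / Real.exp (5 * J)) ^ 2 :=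
        pow_le_pow_left₀ (Real.exp_pos _).le g1 2
      have g4 : Real.exp (5 * (J : ℝ)) ^ 2 = Real.exp (10 * J) := by
        rw [← Real.exp_nat_mul]
        congr 1
        push_cast
        ring
      have g5 := Real.add_one_le_exp (10 * (J : ℝ))
      have g6 := Real.pi_gt_three
      rw [g4] at g3
      nlinarith
    have g7 : Real.exp (-(Real.pi * ((H : ℝ) / Real.exp (5 * J)) ^ 2)) ≤ Real.exp (-(10 * J)) :=
      Real.exp_le_exp.2 (by linarith)
    have g8 : 2 * (1 + Real.exp (5 * (J : ℝ))) ≤ 4 * Real.exp (5 * J) := by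
      have := Real.one_le_exp (show (0 : ℝ) ≤ 5 * J by positivity)
      linarith
    have g9 : 2 * (1 + Real.exp (5 * (J : ℝ))) *
        Real.exp (-(Real.pi * ((H : ℝ) / Real.exp (5 * J)) ^ 2)) ≤
        4 * Real.exp (5 * J) * Real.exp (-(10 * J)) :=
      mul_le_mul g8 g7 (Real.exp_pos _).le (by positivity)
    have g10 : 4 * Real.exp (5 * (J : ℝ)) * Real.exp (-(10 * J)) ≤ 4 * Real.exp (-(J / 800)) := by
      rw [mul_assoc, ← Real.exp_add]
      have : Real.exp (5 * (J : ℝ) + -(10 * J)) ≤ Real.exp (-(J / 800)) :=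
        Real.exp_le_exp.2 (by linarith)
      linarith
    calc (J : ℝ) * (2 * (1 + Real.exp (5 * (J : ℝ))) *
        Real.exp (-(Real.pi * ((H : ℝ) / Real.exp (5 * J)) ^ 2))) ≤
        J * (4 * Real.exp (-(J / 800))) := mul_le_mul_of_nonneg_left (g9.trans g10) hJp.le
      _ = 4 * (J * Real.exp (-(J / 800))) := by ring
  have h3 : (J : ℝ) * (Real.exp (J / 8000) * Real.exp J / Real.exp (5 * J)) ≤
      17 * (J * Real.exp (-(J / 800))) := by
    rw [← Real.exp_add, ← Real.exp_sub]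
    have : Real.exp ((J : ℝ) / 8000 + J - 5 * J) ≤ Real.exp (-(J / 800)) :=
      Real.exp_le_exp.2 (by linarith)
    nlinarith
  have key : ∀ z : ℝ, z ≤ 17 * (J * Real.exp (-(J / 800))) → 2 * card ^ 2 * z ≤ 1 / J := by
    intro z hz
    have k1 : 2 * card ^ 2 * z ≤ 2 * card ^ 2 * (17 * (J * Real.exp (-(J / 800)))) :=
      mul_le_mul_of_nonneg_left hz (by positivity)
    have k2 : 2 * card ^ 2 * (17 * (J * Real.exp (-(J / 800)))) ≤
        2 * Real.exp (J / 4000) * (17 * (J * Real.exp (-(J / 800)))) :=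
      mul_le_mul_of_nonneg_right (by linarith) (by positivity)
    have k3 : 2 * Real.exp (J / 4000) * (17 * (J * Real.exp (-(J / 800)))) =
        34 * J * Real.exp (-(J / 1000)) := by
      have k4 : Real.exp (-((J : ℝ) / 1000)) = Real.exp (J / 4000) * Real.exp (-(J / 800)) := by
        rw [← Real.exp_add]
        congr 1
        ring
      rw [k4]
      ring
    refine (k1.trans k2).trans ?_
    rw [k3, le_div_iff₀ hJp]
    calc 34 * (J : ℝ) * Real.exp (-(J / 1000)) * J = 34 * (J : ℝ) ^ 2 * Real.exp (-(J / 1000)) := by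
          ring
      _ ≤ 1 := hJ
  exact ⟨key _ (by linarith), key _ h3⟩

theorem KK_good (J : ℕ) (hJ : 1608 ≤ J) (u : ℝ) (hu : |u| ≤ Real.exp (3 / 2 * J)) :
    0 ≤ (KK (1 / 400) J u).re ∧ |(KK (1 / 400) J u).im| ≤ 1 / 10 * (KK (1 / 400) J u).re ∧
      ‖KK (1 / 400) J u‖ ≤ 401 := by
  have hJ' : (1608 : ℝ) ≤ J := by exact_mod_cast hJ
  obtain ⟨h1, h2⟩ := KK_arg (1 / 400) (by norm_num) (by norm_num) J (by norm_num; linarith) u
    (hu.trans (Real.exp_le_exp.2 (by norm_num; linarith)))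
  refine ⟨h1.le, ?_, ?_⟩
  · have h3 : (40 : ℝ) * (1 / 400) = 1 / 10 := by norm_num
    rwa [h3] at h2
  · refine (KK_norm_le _ J u).trans ?_
    have hr0 : 0 < Real.exp (-(1 / 400 : ℝ)) := Real.exp_pos _
    have hr : Real.exp (-(1 / 400 : ℝ)) ≤ 400 / 401 := by
      rw [Real.exp_neg]
      have h4 : (401 / 400 : ℝ) ≤ Real.exp (1 / 400) := by
        have := Real.add_one_le_exp (1 / 400 : ℝ)
        linarith
      calc (Real.exp (1 / 400))⁻¹ ≤ (401 / 400 : ℝ)⁻¹ := inv_anti₀ (by norm_num) h4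
        _ = 400 / 401 := by norm_num
    have hsum : ∑ m ∈ range J, Real.exp (-(1 / 400 * (m : ℝ))) =
        ∑ m ∈ range J, Real.exp (-(1 / 400 : ℝ)) ^ m := by
      refine sum_congr rfl fun m _ => ?_
      rw [← Real.exp_nat_mul]
      congr 1
      ring
    rw [hsum]
    have hg := geom_sum_eq (x := Real.exp (-(1 / 400 : ℝ))) (by linarith [hr, (by norm_num : (400 / 401 : ℝ) < 1)] |> fun h : Real.exp (-(1 / 400 : ℝ)) < 1 => h.ne) J
    rw [hg]
    have hp : 0 ≤ Real.exp (-(1 / 400 : ℝ)) ^ J := pow_nonneg hr0.le _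
    have h5 : (Real.exp (-(1 / 400 : ℝ)) ^ J - 1) / (Real.exp (-(1 / 400 : ℝ)) - 1) =
        (1 - Real.exp (-(1 / 400 : ℝ)) ^ J) / (1 - Real.exp (-(1 / 400 : ℝ))) := by
      rw [← neg_sub, ← neg_sub (1 : ℝ) (Real.exp (-(1 / 400 : ℝ))), neg_div_neg_eq]
    rw [h5, div_le_iff₀ (by linarith)]
    linarith

end Pool.Agent.H.MP_b3c6db_nt
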