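import Pool.Agent.H.MP_b3c6db_nt.Factors

/-! The local factors.

PROOF of `facA`: `local_factor` (LocalPrime.lean) gives `ρ^j (1 + ξ)`, `j = (k+1)/2 ≥ 1`, `‖ξ‖ ≤ b ≤ 1/2`;
`R = ρ^j ≤ ρ`, `1 + ξ = exp ζ`, `ζ = log (1 + ξ)`, `‖ζ‖ ≤ 3/2 ‖ξ‖` (`Complex.norm_log_one_add_half_le_self`, see
`exp_form` in Factors.lean). PROOF of `facC`: only `e = 0` remains, `Dlt_one`, `norm_gG_le`, `p^k ≥ p`. -/

namespace Pool.Agent.H.MP_b3c6db_nt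

open Finset Complex

theorem facA (p k : ℕ) (r : ℚ) (hp : p.Prime) (hk : 1 ≤ k) (hr : r.den = p ^ k) (ρ b : ℝ)
    (hρ : 0 < ρ) (hρ1 : ρ ≤ 1) (hρp : 1 < ρ * p)
    (hb : (1 - ρ) * (Real.sqrt (2 * p) / (ρ * p - 1)) ≤ b) (hb2 : b ≤ 1 / 2) :
    (∃ R : ℝ, ∃ ζ : ℂ, 0 ≤ R ∧ R ≤ 1 ∧
      ∑ e ∈ range (k + 1), ((ρ : ℝ) : ℂ) ^ e * Dlt (p ^ e) r = ((R : ℝ) : ℂ) * Complex.exp ζ ∧
      ‖ζ‖ ≤ 3 / 2 * b) ∧
    ‖∑ e ∈ range (k + 1), ((ρ : ℝ) : ℂ) ^ e * Dlt (p ^ e) r‖ ≤ ρ * (1 + b) := by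
  obtain ⟨ξ, h1, h2⟩ := local_factor p k r hp hk hr ρ hρ hρ1 hρp
  have h3 : ‖ξ‖ ≤ b := h2.trans hb
  have h4 : ‖ξ‖ ≤ 1 / 2 := h3.trans hb2
  have hR0 : 0 ≤ ρ ^ ((k + 1) / 2) := by positivity
  have hR1 : ρ ^ ((k + 1) / 2) ≤ ρ := pow_le_of_le_one hρ.le hρ1 (by omega)
  rw [h1]
  refine ⟨⟨ρ ^ ((k + 1) / 2), Complex.log (1 + ξ), hR0, hR1.trans hρ1, ?_, ?_⟩, ?_⟩
  · have hne : (1 + ξ) ≠ 0 := by
      intro h
      have h5 : ξ = -1 := by linear_combination h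
      rw [h5] at h4
      norm_num at h4
    rw [Complex.exp_log hne]
  · exact (Complex.norm_log_one_add_half_le_self h4).trans (by linarith)
  · rw [norm_mul, Complex.norm_real, Real.norm_of_nonneg hR0]
    have h5 : ‖1 + ξ‖ ≤ 1 + b := (norm_add_le _ _).trans (by rw [norm_one]; linarith)
    exact mul_le_mul hR1 h5 (norm_nonneg _) hρ.le

theorem facC (p k : ℕ) (r : ℚ) (hp : p.Prime) (hk : 1 ≤ k) (hr : r.den = p ^ k) :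
    ‖∑ e ∈ range (k + 1), (0 : ℂ) ^ e * Dlt (p ^ e) r‖ ≤ Real.sqrt (2 / p) := by
  rw [Finset.sum_eq_single 0]
  · rw [pow_zero, pow_zero, one_mul, Dlt_one]
    refine (norm_gG_le r).trans (Real.sqrt_le_sqrt ?_)
    have hp0 : (0 : ℝ) < p := by exact_mod_cast hp.pos
    refine div_le_div_of_nonneg_left (by norm_num) hp0 ?_
    rw [hr]
    exact_mod_cast Nat.le_self_pow (by omega) p
  · intro e _ he
    rw [zero_pow he, zero_mul]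
  · intro h
    exact absurd (Finset.mem_range.2 (Nat.succ_pos k)) h

end Pool.Agent.H.MP_b3c6db_nt
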