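import Mathlib

/-! A product of complex numbers with small arguments or small absolute value.

PROOF. `ω = ∑ log p` over the `p ∈ S` with `Y < p ≤ P`. Case 1, some `p ∈ S` is `> P`: `‖F p‖ ≤ √(2/p) ≤ √(2/P)`, the
other factors `p > P` are `≤ 1` in absolute value, those with `Y < p ≤ P` too (`exp (-(log p/5)) ≤ 1`), those with
`p ≤ Y` are `≤ exp ‖ζ‖` with product `≤ exp (3/200)`; so `‖∏ F‖ ≤ 2 √2/√P ≤ 4/√P`. Case 2, no `p > P`, `ω ≥ 5 log P`: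
`‖∏ F‖ ≤ exp (3/200) exp (-ω/5) ≤ 2/P ≤ 4/√P`. Case 3, no `p > P`, `ω < 5 log P`: `∏ F = R exp Z`, `R ≥ 0`,
`‖Z‖ ≤ 3/200 + 3/200 ω/log P ≤ 9/100`, so `Re (K R exp Z) = R e^{Re Z} (Re K cos (Im Z) - Im K sin (Im Z)) ≥ 0`.
In cases 1 and 2: `Re (K F) ≥ -‖K‖ ‖F‖ ≥ -M 4/√P`. -/

set_option autoImplicit false

namespace Pool.Agent.H.MP_b3c6db_nt

open Finset Complex

private lemma NCLocB_polar (T : Finset ℕ) (F : ℕ → ℂ) (b : ℕ → ℝ)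
    (h : ∀ p ∈ T, ∃ R : ℝ, ∃ ζ : ℂ, 0 ≤ R ∧ F p = ((R : ℝ) : ℂ) * Complex.exp ζ ∧ ‖ζ‖ ≤ b p) :
    ∃ R : ℝ, ∃ ζ : ℂ, 0 ≤ R ∧ ∏ p ∈ T, F p = ((R : ℝ) : ℂ) * Complex.exp ζ ∧
      ‖ζ‖ ≤ ∑ p ∈ T, b p := by
  classical
  induction T using Finset.induction_on with
  | empty => exact ⟨1, 0, by norm_num, by simp, by simp⟩
  | insert q s hq ih =>
    obtain ⟨R, ζ, hR, hF, hz⟩ := h q (Finset.mem_insert_self q s)
    obtain ⟨R', ζ', hR', hF', hz'⟩ := ih (fun p hp => h p (Finset.mem_insert_of_mem hp))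
    refine ⟨R * R', ζ + ζ', mul_nonneg hR hR', ?_, ?_⟩
    · rw [Finset.prod_insert hq, hF, hF', Complex.exp_add]
      push_cast
      ring
    · rw [Finset.sum_insert hq]
      exact (norm_add_le _ _).trans (add_le_add hz hz')

private lemma NCLocB_pos (K : ℂ) (R : ℝ) (Z : ℂ) (hR : 0 ≤ R) (hZ : ‖Z‖ ≤ 9 / 100)
    (hK0 : 0 ≤ K.re) (hK1 : |K.im| ≤ 1 / 10 * K.re) :
    0 ≤ (K * (((R : ℝ) : ℂ) * Complex.exp Z)).re := by
  have h1 : (K * (((R : ℝ) : ℂ) * Complex.exp Z)).re =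
      R * Real.exp Z.re * (K.re * Real.cos Z.im - K.im * Real.sin Z.im) := by
    simp only [Complex.mul_re, Complex.mul_im, Complex.exp_re, Complex.exp_im, Complex.ofReal_re,
      Complex.ofReal_im]
    ring
  rw [h1]
  have h2 : |Z.im| ≤ 9 / 100 := (Complex.abs_im_le_norm Z).trans hZ
  have h3 := Real.one_sub_sq_div_two_le_cos (x := Z.im)
  have h4 : Z.im ^ 2 ≤ 1 := by
    rw [← sq_abs]
    have h5 := abs_nonneg Z.im
    nlinarith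
  have h5 : (1 : ℝ) / 2 ≤ Real.cos Z.im := by linarith
  have h6 : K.im * Real.sin Z.im ≤ 1 / 10 * K.re := by
    calc K.im * Real.sin Z.im ≤ |K.im * Real.sin Z.im| := le_abs_self _
      _ = |K.im| * |Real.sin Z.im| := abs_mul _ _
      _ ≤ |K.im| * 1 := mul_le_mul_of_nonneg_left (Real.abs_sin_le_one _) (abs_nonneg _)
      _ ≤ 1 / 10 * K.re := by rw [mul_one]; exact hK1
  have h7 : K.re * (1 / 2) ≤ K.re * Real.cos Z.im := mul_le_mul_of_nonneg_left h5 hK0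
  have h8 := Real.exp_pos Z.re
  apply mul_nonneg (mul_nonneg hR h8.le)
  linarith

private lemma NCLocB_normA (T : Finset ℕ) (F : ℕ → ℂ) (e : ℕ → ℝ)
    (h : ∀ p ∈ T, ∃ R : ℝ, ∃ ζ : ℂ, 0 ≤ R ∧ R ≤ 1 ∧
      F p = ((R : ℝ) : ℂ) * Complex.exp ζ ∧ ‖ζ‖ ≤ 3 / 2 * e p)
    (hs : ∑ p ∈ T, e p ≤ 1 / 100) : ‖∏ p ∈ T, F p‖ ≤ 2 := by
  rw [norm_prod]
  have h1 : ∏ p ∈ T, ‖F p‖ ≤ ∏ p ∈ T, Real.exp (3 / 2 * e p) := by
    apply Finset.prod_le_prod (fun _ _ => norm_nonneg _)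
    intro p hp
    obtain ⟨R, ζ, hR0, hR1, hF, hz⟩ := h p hp
    rw [hF, norm_mul, Complex.norm_real, Real.norm_of_nonneg hR0, Complex.norm_exp]
    have h2 : Real.exp ζ.re ≤ Real.exp (3 / 2 * e p) :=
      Real.exp_le_exp.2 ((Complex.re_le_norm ζ).trans hz)
    have h3 := Real.exp_pos ζ.re
    calc R * Real.exp ζ.re ≤ 1 * Real.exp ζ.re := mul_le_mul_of_nonneg_right hR1 h3.le
      _ ≤ Real.exp (3 / 2 * e p) := by rw [one_mul]; exact h2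
  refine h1.trans ?_
  rw [← Real.exp_sum, ← Finset.mul_sum]
  have h4 : Real.exp (3 / 2 * ∑ p ∈ T, e p) ≤ Real.exp (1 / 2) := by
    apply Real.exp_le_exp.2
    linarith
  refine h4.trans ?_
  have h5 : Real.exp (1 / 2) * Real.exp (1 / 2) = Real.exp 1 := by
    rw [← Real.exp_add]
    norm_num
  have h6 := Real.exp_one_lt_d9
  have h7 := Real.exp_pos (1 / 2)
  nlinarith

private lemma NCLocB_normB (T : Finset ℕ) (F : ℕ → ℂ)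
    (h : ∀ p ∈ T, ‖F p‖ ≤ Real.exp (-(Real.log p / 5))) :
    ‖∏ p ∈ T, F p‖ ≤ Real.exp (-((∑ p ∈ T, Real.log (p : ℝ)) / 5)) := by
  rw [norm_prod]
  have h1 : ∏ p ∈ T, ‖F p‖ ≤ ∏ p ∈ T, Real.exp (-(Real.log p / 5)) :=
    Finset.prod_le_prod (fun _ _ => norm_nonneg _) h
  refine h1.trans ?_
  rw [← Real.exp_sum, Finset.sum_neg_distrib, Finset.sum_div]

private lemma NCLocB_sqrt_le (p : ℕ) (hp : 2 ≤ p) : Real.sqrt (2 / p) ≤ 1 := by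
  rw [← Real.sqrt_one]
  apply Real.sqrt_le_sqrt
  have h1 : (2 : ℝ) ≤ p := by exact_mod_cast hp
  rw [div_le_one (by linarith)]
  exact h1

private lemma NCLocB_normC1 (T : Finset ℕ) (F : ℕ → ℂ) (hT : ∀ p ∈ T, 2 ≤ p)
    (h : ∀ p ∈ T, ‖F p‖ ≤ Real.sqrt (2 / p)) : ‖∏ p ∈ T, F p‖ ≤ 1 := by
  rw [norm_prod]
  apply Finset.prod_le_one (fun _ _ => norm_nonneg _)
  intro p hp
  exact (h p hp).trans (NCLocB_sqrt_le p (hT p hp))

private lemma NCLocB_normC (T : Finset ℕ) (F : ℕ → ℂ) (hT : ∀ p ∈ T, 2 ≤ p)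
    (h : ∀ p ∈ T, ‖F p‖ ≤ Real.sqrt (2 / p)) (q : ℕ) (hq : q ∈ T) :
    ‖∏ p ∈ T, F p‖ ≤ Real.sqrt (2 / q) := by
  classical
  rw [← Finset.mul_prod_erase T F hq, norm_mul]
  have h1 := NCLocB_normC1 (T.erase q) F (fun p hp => hT p (Finset.mem_of_mem_erase hp))
    (fun p hp => h p (Finset.mem_of_mem_erase hp))
  calc ‖F q‖ * ‖∏ p ∈ T.erase q, F p‖ ≤ Real.sqrt (2 / q) * 1 :=
        mul_le_mul (h q hq) h1 (norm_nonneg _) (Real.sqrt_nonneg _)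
    _ = Real.sqrt (2 / q) := mul_one _

private lemma NCLocB_re (K G : ℂ) (M c : ℝ) (hKM : ‖K‖ ≤ M) (hG : ‖G‖ ≤ c) :
    -(M * c) ≤ (K * G).re := by
  have h1 := Complex.abs_re_le_norm (K * G)
  rw [norm_mul] at h1
  have h2 : ‖K‖ * ‖G‖ ≤ M * c :=
    mul_le_mul hKM hG (norm_nonneg _) ((norm_nonneg _).trans hKM)
  have h3 := neg_abs_le (K * G).re
  linarith

theorem locB (S : Finset ℕ) (F : ℕ → ℂ) (e : ℕ → ℝ) (Y P : ℝ) (hP : 100 ≤ P)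
    (hS : ∀ p ∈ S, 2 ≤ p)
    (hA : ∀ p ∈ S, (p : ℝ) ≤ Y → ∃ R : ℝ, ∃ ζ : ℂ, 0 ≤ R ∧ R ≤ 1 ∧
      F p = ((R : ℝ) : ℂ) * Complex.exp ζ ∧ ‖ζ‖ ≤ 3 / 2 * e p)
    (hAs : ∑ p ∈ S.filter (fun p : ℕ => (p : ℝ) ≤ Y), e p ≤ 1 / 100)
    (hB : ∀ p ∈ S, Y < p → (p : ℝ) ≤ P → (∃ R : ℝ, ∃ ζ : ℂ, 0 ≤ R ∧ R ≤ 1 ∧
      F p = ((R : ℝ) : ℂ) * Complex.exp ζ ∧ ‖ζ‖ ≤ 3 / 2 * (Real.log p / (100 * Real.log P))) ∧
      ‖F p‖ ≤ Real.exp (-(Real.log p / 5)))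
    (hC : ∀ p ∈ S, Y < p → P < p → ‖F p‖ ≤ Real.sqrt (2 / p))
    (K : ℂ) (M : ℝ) (hK0 : 0 ≤ K.re) (hK1 : |K.im| ≤ 1 / 10 * K.re) (hKM : ‖K‖ ≤ M) :
    -(M * (4 / Real.sqrt P)) ≤ (K * ∏ p ∈ S, F p).re := by
  classical
  have hP0 : (0 : ℝ) < P := by linarith
  have hlP : 0 < Real.log P := Real.log_pos (by linarith)
  have hsP : 0 < Real.sqrt P := Real.sqrt_pos.2 hP0
  have hM0 : 0 ≤ M := (norm_nonneg _).trans hKM
  obtain ⟨SA, hSA⟩ : ∃ SA, SA = S.filter (fun p : ℕ => (p : ℝ) ≤ Y) := ⟨_, rfl⟩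
  obtain ⟨SN, hSN⟩ : ∃ SN, SN = S.filter (fun p : ℕ => ¬ (p : ℝ) ≤ Y) := ⟨_, rfl⟩
  obtain ⟨SB, hSB⟩ : ∃ SB, SB = SN.filter (fun p : ℕ => (p : ℝ) ≤ P) := ⟨_, rfl⟩
  obtain ⟨SC, hSC⟩ : ∃ SC, SC = SN.filter (fun p : ℕ => ¬ (p : ℝ) ≤ P) := ⟨_, rfl⟩
  have hsplit : ∏ p ∈ S, F p = (∏ p ∈ SA, F p) * ((∏ p ∈ SB, F p) * ∏ p ∈ SC, F p) := by
    rw [hSB, hSC, Finset.prod_filter_mul_prod_filter_not, hSN, hSA,
      Finset.prod_filter_mul_prod_filter_not]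
  have mA : ∀ p ∈ SA, p ∈ S ∧ (p : ℝ) ≤ Y := by
    intro p hp
    rw [hSA, Finset.mem_filter] at hp
    exact hp
  have mB : ∀ p ∈ SB, p ∈ S ∧ Y < p ∧ (p : ℝ) ≤ P := by
    intro p hp
    rw [hSB, Finset.mem_filter, hSN, Finset.mem_filter] at hp
    exact ⟨hp.1.1, not_le.1 hp.1.2, hp.2⟩
  have mC : ∀ p ∈ SC, p ∈ S ∧ Y < p ∧ P < p := by
    intro p hp
    rw [hSC, Finset.mem_filter, hSN, Finset.mem_filter] at hp
    exact ⟨hp.1.1, not_le.1 hp.1.2, not_le.1 hp.2⟩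
  rw [← hSA] at hAs
  have hA' : ∀ p ∈ SA, ∃ R : ℝ, ∃ ζ : ℂ, 0 ≤ R ∧ R ≤ 1 ∧
      F p = ((R : ℝ) : ℂ) * Complex.exp ζ ∧ ‖ζ‖ ≤ 3 / 2 * e p :=
    fun p hp => hA p (mA p hp).1 (mA p hp).2
  have hB' : ∀ p ∈ SB, ‖F p‖ ≤ Real.exp (-(Real.log p / 5)) :=
    fun p hp => (hB p (mB p hp).1 (mB p hp).2.1 (mB p hp).2.2).2
  have hC' : ∀ p ∈ SC, ‖F p‖ ≤ Real.sqrt (2 / p) :=
    fun p hp => hC p (mC p hp).1 (mC p hp).2.1 (mC p hp).2.2
  have nA := NCLocB_normA SA F e hA' hAs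
  have nB := NCLocB_normB SB F hB'
  obtain ⟨ω, hω⟩ : ∃ ω : ℝ, ω = ∑ p ∈ SB, Real.log (p : ℝ) := ⟨_, rfl⟩
  rw [← hω] at nB
  have hω0 : 0 ≤ ω := by
    rw [hω]
    exact Finset.sum_nonneg fun p _ => Real.log_natCast_nonneg p
  have nB1 : ‖∏ p ∈ SB, F p‖ ≤ 1 := by
    refine nB.trans ?_
    rw [Real.exp_le_one_iff]
    linarith
  rcases Finset.eq_empty_or_nonempty SC with hCe | ⟨q, hq⟩
  · have hsplit2 : ∏ p ∈ S, F p = (∏ p ∈ SA, F p) * ∏ p ∈ SB, F p := by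
      rw [hsplit, hCe, Finset.prod_empty, mul_one]
    rcases le_or_gt (5 * Real.log P) ω with h5 | h5
    · -- case 2
      rw [hsplit2]
      apply NCLocB_re K _ M _ hKM
      rw [norm_mul]
      have h6 : ‖∏ p ∈ SB, F p‖ ≤ 1 / P := by
        refine nB.trans ?_
        have h7 : Real.exp (-(ω / 5)) ≤ Real.exp (-Real.log P) := by
          apply Real.exp_le_exp.2
          linarith
        refine h7.trans (le_of_eq ?_)
        rw [Real.exp_neg, Real.exp_log hP0, one_div]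
      have h8 : 1 / P ≤ 1 / Real.sqrt P := by
        apply one_div_le_one_div_of_le hsP
        rw [Real.sqrt_le_left (by linarith)]
        nlinarith
      have h9 : 0 < 1 / Real.sqrt P := by positivity
      calc ‖∏ p ∈ SA, F p‖ * ‖∏ p ∈ SB, F p‖ ≤ 2 * (1 / Real.sqrt P) :=
            mul_le_mul nA (h6.trans h8) (norm_nonneg _) (by norm_num)
        _ ≤ 4 * (1 / Real.sqrt P) := by linarith
        _ = 4 / Real.sqrt P := by ring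
    · -- case 3
      obtain ⟨R1, Z1, hR1, hF1, hZ1⟩ := NCLocB_polar SA F (fun p => 3 / 2 * e p) (by
        intro p hp
        obtain ⟨R, ζ, a1, _, a3, a4⟩ := hA' p hp
        exact ⟨R, ζ, a1, a3, a4⟩)
      obtain ⟨R2, Z2, hR2, hF2, hZ2⟩ := NCLocB_polar SB F
        (fun p => 3 / 2 * (Real.log p / (100 * Real.log P))) (by
        intro p hp
        obtain ⟨⟨R, ζ, a1, _, a3, a4⟩, _⟩ := hB p (mB p hp).1 (mB p hp).2.1 (mB p hp).2.2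
        exact ⟨R, ζ, a1, a3, a4⟩)
      rw [← Finset.mul_sum] at hZ1 hZ2
      rw [← Finset.sum_div, ← hω] at hZ2
      have h6 : ω / (100 * Real.log P) ≤ 5 / 100 := by
        rw [div_le_iff₀ (by positivity)]
        linarith
      have hZ : ‖Z1 + Z2‖ ≤ 9 / 100 := by
        refine (norm_add_le _ _).trans ?_
        linarith
      have h7 : ∏ p ∈ S, F p = (((R1 * R2 : ℝ)) : ℂ) * Complex.exp (Z1 + Z2) := by
        rw [hsplit2, hF1, hF2, Complex.exp_add]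
        push_cast
        ring
      rw [h7]
      have h8 := NCLocB_pos K (R1 * R2) (Z1 + Z2) (mul_nonneg hR1 hR2) hZ hK0 hK1
      have h9 : 0 ≤ M * (4 / Real.sqrt P) := by positivity
      linarith
  · -- case 1
    rw [hsplit]
    apply NCLocB_re K _ M _ hKM
    have nC := NCLocB_normC SC F (fun p hp => hS p (mC p hp).1) hC' q hq
    have hqP := (mC q hq).2.2
    have hq0 : (0 : ℝ) < q := by linarith
    have h6 : Real.sqrt (2 / q) ≤ 2 / Real.sqrt P := by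
      have h7 : Real.sqrt (2 / q) ≤ Real.sqrt (4 / P) := by
        apply Real.sqrt_le_sqrt
        rw [div_le_div_iff₀ hq0 hP0]
        linarith
      refine h7.trans (le_of_eq ?_)
      rw [Real.sqrt_div (by norm_num)]
      have h8 : Real.sqrt 4 = 2 := by
        rw [show (4 : ℝ) = 2 ^ 2 by norm_num]
        exact Real.sqrt_sq (by norm_num)
      rw [h8]
    rw [norm_mul, norm_mul]
    calc ‖∏ p ∈ SA, F p‖ * (‖∏ p ∈ SB, F p‖ * ‖∏ p ∈ SC, F p‖)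
        ≤ 2 * (1 * (2 / Real.sqrt P)) := by
          apply mul_le_mul nA _ (by positivity) (by norm_num)
          exact mul_le_mul nB1 (nC.trans h6) (norm_nonneg _) (by norm_num)
      _ = 4 / Real.sqrt P := by ring

end Pool.Agent.H.MP_b3c6db_nt
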