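import Pool.Agent.H.MP_b3c6db_nt.NC.LocB
import Pool.Agent.H.MP_b3c6db_nt.NC.Fac
import Pool.Agent.H.MP_b3c6db_nt.Euler

/-! The local theorem.

PROOF. `euler_struct` (Euler.lean) with `R = ℂ`, `N = MonoidHom.id ℂ`, `ρ p = (x p : ℂ)`: the sum is the product over
`p ∈ r.den.primeFactors` of the local sums `F p` for `rp p`, `(rp p).den = p^(r.den.factorization p)`, exponent `≥ 1`.
`locB` with `S = r.den.primeFactors`: `hA`, `hB` from `facA` (with `b = e p`, resp.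
`b = log p/(100 log P) ≤ 1/100` and `ρ (1 + b) ≤ exp (-(log p/5))`), `hC` from `facC` and `h3`. -/

set_option autoImplicit false

namespace Pool.Agent.H.MP_b3c6db_nt

open Finset Complex

theorem loc_main (x e : ℕ → ℝ) (Y P : ℝ) (hP : 100 ≤ P)
    (h1 : ∀ p : ℕ, p.Prime → (p : ℝ) ≤ Y → 0 < x p ∧ x p ≤ 1 ∧ 1 < x p * p ∧
      (1 - x p) * (Real.sqrt (2 * p) / (x p * p - 1)) ≤ e p ∧ e p ≤ 1 / 2)
    (h1s : ∀ S : Finset ℕ, (∀ p ∈ S, p.Prime ∧ (p : ℝ) ≤ Y) → ∑ p ∈ S, e p ≤ 1 / 100)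
    (h2 : ∀ p : ℕ, p.Prime → Y < p → (p : ℝ) ≤ P → 0 < x p ∧ x p ≤ 1 ∧ 1 < x p * p ∧
      (1 - x p) * (Real.sqrt (2 * p) / (x p * p - 1)) ≤ Real.log p / (100 * Real.log P) ∧
      x p * (1 + Real.log p / (100 * Real.log P)) ≤ Real.exp (-(Real.log p / 5)))
    (h3 : ∀ p : ℕ, p.Prime → P < p → x p = 0)
    (K : ℂ) (M : ℝ) (hK0 : 0 ≤ K.re) (hK1 : |K.im| ≤ 1 / 10 * K.re) (hKM : ‖K‖ ≤ M) (r : ℚ) :
    -(M * (4 / Real.sqrt P)) ≤
      (K * ∑ v ∈ r.den.divisors, Arho (fun p => ((x p : ℝ) : ℂ)) v * Dlt v r).re := by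
  obtain ⟨rp, hrp, hE⟩ := euler_struct (MonoidHom.id ℂ) r.den r.den_ne_zero r rfl
  have hE' := hE (fun p => ((x p : ℝ) : ℂ))
  simp only [MonoidHom.id_apply] at hE'
  rw [hE']
  have hk : ∀ p ∈ r.den.primeFactors, 1 ≤ r.den.factorization p := fun p hp =>
    (Nat.prime_of_mem_primeFactors hp).factorization_pos_of_dvd r.den_ne_zero
      (Nat.dvd_of_mem_primeFactors hp)
  refine locB r.den.primeFactors (fun p => ∑ i ∈ range (r.den.factorization p + 1),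
    ((x p : ℝ) : ℂ) ^ i * Dlt (p ^ i) (rp p)) e Y P hP ?_ ?_ ?_ ?_ ?_ K M hK0 hK1 hKM
  · intro p hp
    exact (Nat.prime_of_mem_primeFactors hp).two_le
  · intro p hp hpY
    obtain ⟨hx0, hx1, hxp, hb, hb2⟩ := h1 p (Nat.prime_of_mem_primeFactors hp) hpY
    exact (facA p _ (rp p) (Nat.prime_of_mem_primeFactors hp) (hk p hp) (hrp p hp) (x p) (e p)
      hx0 hx1 hxp hb hb2).1
  · refine h1s _ fun p hp => ?_
    rw [mem_filter] at hp
    exact ⟨Nat.prime_of_mem_primeFactors hp.1, hp.2⟩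
  · intro p hp hpY hpP
    have hpr := Nat.prime_of_mem_primeFactors hp
    obtain ⟨hx0, hx1, hxp, hb, hb2⟩ := h2 p hpr hpY hpP
    have hp0 : (0 : ℝ) < p := by exact_mod_cast hpr.pos
    have hl : 0 < Real.log P := Real.log_pos (by linarith)
    have hl2 : Real.log p ≤ Real.log P := Real.log_le_log hp0 hpP
    have hb3 : Real.log p / (100 * Real.log P) ≤ 1 / 2 := by
      rw [div_le_div_iff₀ (by positivity) (by norm_num)]
      linarith
    obtain ⟨h4, h5⟩ := facA p _ (rp p) hpr (hk p hp) (hrp p hp) (x p)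
      (Real.log p / (100 * Real.log P)) hx0 hx1 hxp hb hb3
    exact ⟨h4, h5.trans hb2⟩
  · intro p hp _ hpP
    have hpr := Nat.prime_of_mem_primeFactors hp
    have h4 := facC p _ (rp p) hpr (hk p hp) (hrp p hp)
    rw [h3 p hpr hpP, Complex.ofReal_zero]
    exact h4

end Pool.Agent.H.MP_b3c6db_nt
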