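import Pool.Agent.H.MP_b3c6db_nt.NC.Defs
import Pool.Agent.H.MP_b3c6db_nt.LocalOp

/-! The local inequality at a prime `p ≡ 1 mod 4` for polynomials with non-negative coefficients:
the average over the residues or non-residues. -/

namespace Pool.Agent.H.MP_b3c6db_nt

open Complex Finset

section gauss1

variable (p : ℕ) [Fact p.Prime]

private lemma LowA_ringChar (hp : p % 4 = 1) : ringChar (ZMod p) ≠ 2 := by
  rw [ZMod.ringChar_zmod_n]
  intro h
  omega

private lemma LowA_gs_sq (hp : p % 4 = 1) : gs p ^ 2 = (p : ℂ) := by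
  have hp2 := LowA_ringChar p hp
  rw [gs_eq, gaussSum_sq]
  · rw [ZMod.card]
    have h1 : quadraticChar (ZMod p) (-1) = 1 := by
      rw [quadraticChar_neg_one hp2, ZMod.card]
      exact ZMod.χ₄_nat_one_mod_four hp
    simp [MulChar.ringHomComp_apply, h1]
  · intro h
    have h2 := quadraticChar_ne_one hp2
    apply h2
    ext u
    have h3 : ((quadraticChar (ZMod p)).ringHomComp (Int.castRingHom ℂ)) u =
        (1 : MulChar (ZMod p) ℂ) u := by
      rw [h]
    simp only [MulChar.ringHomComp_apply, MulChar.one_apply_coe, eq_intCast] at h3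
    rw [MulChar.one_apply_coe]
    exact_mod_cast h3
  · exact (quadraticChar_isQuadratic _).comp _
  · exact ZMod.isPrimitive_stdAddChar p

private lemma LowA_sign (hp : p % 4 = 1) :
    ∃ s : ℝ, (s = 1 ∨ s = -1) ∧ (s : ℂ) * gs p = (Real.sqrt p : ℂ) := by
  have h1 := LowA_gs_sq p hp
  have h2 : ((Real.sqrt p : ℝ) : ℂ) ^ 2 = (p : ℂ) := by
    rw [← Complex.ofReal_pow, Real.sq_sqrt (Nat.cast_nonneg p)]
    simp
  have h3 : gs p ^ 2 = ((Real.sqrt p : ℝ) : ℂ) ^ 2 := by rw [h1, h2]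
  rcases sq_eq_sq_iff_eq_or_eq_neg.mp h3 with h | h
  · exact ⟨1, Or.inl rfl, by simp [h]⟩
  · exact ⟨-1, Or.inr rfl, by simp [h]⟩

private lemma LowA_quad (hp : p % 4 = 1) (k : ℕ) :
    ∑ b : ZMod p, ((quadraticChar (ZMod p) b : ℤ) : ℂ) * ex (((k ^ 2 : ℕ) : ℝ) * (b.val : ℝ) / p)
      = if p ∣ k then 0 else gs p := by
  have hp2 := LowA_ringChar p hp
  simp_rw [ex_eq_stdAddChar]
  split_ifs with h
  · have h0 : (((k ^ 2 : ℕ)) : ZMod p) = 0 := by
      rw [ZMod.natCast_eq_zero_iff]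
      exact dvd_pow h (by norm_num)
    simp only [h0, zero_mul, AddChar.map_zero_eq_one, mul_one]
    rw [← Int.cast_sum, quadraticChar_sum_zero hp2, Int.cast_zero]
  · have hk : ((k : ℕ) : ZMod p) ≠ 0 := by
      rwa [Ne, ZMod.natCast_eq_zero_iff]
    have hk2 : (((k ^ 2 : ℕ)) : ZMod p) ≠ 0 := by
      push_cast
      exact pow_ne_zero 2 hk
    set u : (ZMod p)ˣ := Units.mk0 _ hk2 with hu
    have h1 := gaussSum_mulShift ((quadraticChar (ZMod p)).ringHomComp (Int.castRingHom ℂ))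
      (ZMod.stdAddChar (N := p)) u
    have h2 : ((quadraticChar (ZMod p)).ringHomComp (Int.castRingHom ℂ)) (u : ZMod p) = 1 := by
      have h3 : quadraticChar (ZMod p) (u : ZMod p) = 1 := by
        simp only [hu, Units.val_mk0]
        push_cast
        exact quadraticChar_sq_one' hk
      rw [MulChar.ringHomComp_apply, h3]
      simp
    rw [h2, one_mul, ← gs_eq] at h1
    rw [← h1]
    unfold gaussSum
    apply sum_congr rfl
    intro b _
    rw [AddChar.mulShift_apply]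
    simp [hu, MulChar.ringHomComp_apply]

private lemma LowA_inner (hp : p % 4 = 1) (α β : ℝ) (m : ℕ) :
    inner0 p α β ((m : ℝ) ^ 2 / p) =
      (α : ℂ) * ((if p ∣ m then (p : ℂ) else 0) - 1) + (β : ℂ) * (if p ∣ m then 0 else gs p) := by
  have h1 := LowA_quad p hp m
  have h2 := sum_all_ex p (m ^ 2)
  have hdiv : p ∣ m ^ 2 ↔ p ∣ m := by
    constructor
    · exact fun h => Nat.Prime.dvd_of_dvd_pow Fact.out h
    · exact fun h => dvd_pow h (by norm_num)
  simp only [hdiv] at h2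
  rw [← h1, ← h2]
  have h3 : ∀ b : ZMod p, ex ((m : ℝ) ^ 2 / p * (b.val : ℝ)) =
      ex (((m ^ 2 : ℕ) : ℝ) * (b.val : ℝ) / p) := by
    intro b
    congr 1
    push_cast
    ring
  unfold inner0
  simp_rw [h3]
  have h4 : ∑ b : ZMod p, ex (((m ^ 2 : ℕ) : ℝ) * (b.val : ℝ) / p) - 1 =
      ∑ b ∈ (univ : Finset (ZMod p)).filter (· ≠ 0), ex (((m ^ 2 : ℕ) : ℝ) * (b.val : ℝ) / p) := by
    rw [Finset.filter_ne', Finset.sum_erase_eq_sub (mem_univ 0)]
    simp [ex_zero]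
  have h5 : ∑ b : ZMod p, ((quadraticChar (ZMod p) b : ℤ) : ℂ) *
      ex (((m ^ 2 : ℕ) : ℝ) * (b.val : ℝ) / p)
      = ∑ b ∈ (univ : Finset (ZMod p)).filter (· ≠ 0),
        ((quadraticChar (ZMod p) b : ℤ) : ℂ) * ex (((m ^ 2 : ℕ) : ℝ) * (b.val : ℝ) / p) := by
    rw [Finset.filter_ne', Finset.sum_erase_eq_sub (mem_univ 0)]
    simp
  rw [h4, h5, mul_sum, mul_sum, ← sum_add_distrib]
  apply sum_congr rfl
  intro b _
  push_cast
  ring

private lemma LowA_re (hp : p % 4 = 1) (s : ℝ) (hs : (s : ℂ) * gs p = (Real.sqrt p : ℂ)) (m : ℕ) :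
    (inner0 p 1 (-s) ((m : ℝ) ^ 2 / p)).re =
      if p ∣ m then (p : ℝ) - 1 else -1 - Real.sqrt p := by
  rw [LowA_inner p hp]
  split_ifs with h
  · simp
  · have h1 : ((1 : ℝ) : ℂ) * (0 - 1) + ((-s : ℝ) : ℂ) * gs p = ((-1 - Real.sqrt p : ℝ) : ℂ) := by
      have h2 : ((-s : ℝ) : ℂ) * gs p = -((Real.sqrt p : ℝ) : ℂ) := by
        rw [← hs]
        push_cast
        ring
      rw [h2]
      push_cast
      ring
    rw [h1, Complex.ofReal_re]

private lemma LowA_cos (s : ℝ) (m : ℕ) :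
    (inner0 p 1 (-s) ((m : ℝ) ^ 2 / p)).re =
      ∑ b ∈ (univ : Finset (ZMod p)).filter (· ≠ 0),
        (1 + -s * ((quadraticChar (ZMod p) b : ℤ) : ℝ)) *
          Real.cos (2 * Real.pi * (m : ℝ) ^ 2 * ((b.val : ℝ) / p)) := by
  unfold inner0
  rw [Complex.re_sum]
  apply sum_congr rfl
  intro b _
  rw [Complex.re_ofReal_mul, ex_re]
  congr 2
  ring

private lemma LowA_main (hp : p % 4 = 1) (H : ℕ) (c : ℕ → ℝ) (hc : Admissible H c) :
    0 ≤ c 0 * ((p : ℝ) - 1) + ∑ k ∈ Icc 1 H, c k *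
      (if p ∣ k then (p : ℝ) - 1 else -1 - Real.sqrt p) := by
  obtain ⟨s, hs1, hs⟩ := LowA_sign p hp
  have h0 : 0 ≤ ∑ b ∈ (univ : Finset (ZMod p)).filter (· ≠ 0),
      (1 + -s * ((quadraticChar (ZMod p) b : ℤ) : ℝ)) * cosPoly H c ((b.val : ℝ) / p) := by
    apply sum_nonneg
    intro b hb
    refine mul_nonneg ?_ (hc.1 _)
    rw [mem_filter] at hb
    rcases quadraticChar_dichotomy hb.2 with h | h <;> rcases hs1 with h' | h' <;>
      rw [h, h'] <;> norm_num
  refine h0.trans (le_of_eq ?_)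
  have e1 := LowA_re p hp s hs 0
  have e2 := LowA_cos p s 0
  rw [e1, if_pos (dvd_zero p)] at e2
  have e3 : ∀ b ∈ (univ : Finset (ZMod p)).filter (· ≠ 0),
      (1 + -s * ((quadraticChar (ZMod p) b : ℤ) : ℝ)) * cosPoly H c ((b.val : ℝ) / p) =
      c 0 * ((1 + -s * ((quadraticChar (ZMod p) b : ℤ) : ℝ)) *
          Real.cos (2 * Real.pi * ((0 : ℕ) : ℝ) ^ 2 * ((b.val : ℝ) / p))) +
      ∑ k ∈ Icc 1 H, c k * ((1 + -s * ((quadraticChar (ZMod p) b : ℤ) : ℝ)) *
          Real.cos (2 * Real.pi * (k : ℝ) ^ 2 * ((b.val : ℝ) / p))) := by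
    intro b _
    unfold cosPoly
    rw [mul_add, mul_sum]
    congr 1
    · simp
      ring
    · apply sum_congr rfl
      intro k _
      ring
  rw [sum_congr rfl e3, sum_add_distrib, ← mul_sum, ← e2, sum_comm]
  congr 1
  apply sum_congr rfl
  intro k _
  rw [← mul_sum, ← LowA_cos p s k, LowA_re p hp s hs k]

end gauss1

/-- The local inequality: `c 0` plus the mass of the multiples of `p` is at least `1 / √p`. -/
theorem nn_local {H : ℕ} {c : ℕ → ℝ} (hc : Admissible H c) {p : ℕ} (hp : p.Prime)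
    (hp4 : p % 4 = 1) :
    1 / Real.sqrt p ≤ c 0 + ∑ k ∈ (Icc 1 H).filter (fun k => p ∣ k), c k := by
  have : Fact p.Prime := ⟨hp⟩
  have h1 := LowA_main p hp4 H c hc
  have h2 : c 0 + ∑ k ∈ Icc 1 H, c k = 1 := by
    have h3 := hc.2
    unfold cosPoly at h3
    simpa using h3
  have h3 : ∑ k ∈ Icc 1 H, c k * (if p ∣ k then (p : ℝ) - 1 else -1 - Real.sqrt p) =
      ((p : ℝ) + Real.sqrt p) * (∑ k ∈ (Icc 1 H).filter (fun k => p ∣ k), c k) +
        (-1 - Real.sqrt p) * ∑ k ∈ Icc 1 H, c k := by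
    rw [sum_filter, mul_sum, mul_sum, ← sum_add_distrib]
    apply sum_congr rfl
    intro k _
    split_ifs <;> ring
  rw [h3] at h1
  have hp0 : (0 : ℝ) < p := by exact_mod_cast hp.pos
  have hs0 : 0 < Real.sqrt p := Real.sqrt_pos.2 hp0
  have hs : Real.sqrt p * Real.sqrt p = p := Real.mul_self_sqrt hp0.le
  generalize (∑ k ∈ (Icc 1 H).filter (fun k => p ∣ k), c k) = h at h1
  have h4 : ∑ k ∈ Icc 1 H, c k = 1 - c 0 := by linarith
  rw [h4] at h1
  rw [div_le_iff₀ hs0]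
  have h5 : 0 ≤ (1 + Real.sqrt p) * ((c 0 + h) * Real.sqrt p - 1) := by
    have e : (1 + Real.sqrt p) * ((c 0 + h) * Real.sqrt p - 1) =
        c 0 * ((p : ℝ) - 1) + (((p : ℝ) + Real.sqrt p) * h + (-1 - Real.sqrt p) * (1 - c 0)) := by
      linear_combination (c 0 + h) * hs
    rw [e]
    exact h1
  have h6 : 0 < 1 + Real.sqrt p := by linarith
  have h7 : 0 ≤ (c 0 + h) * Real.sqrt p - 1 := by
    by_contra hcon
    push Not at hcon
    exact absurd h5 (not_le.2 (mul_neg_of_pos_of_neg h6 hcon))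
  linarith

end Pool.Agent.H.MP_b3c6db_nt
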