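import Pool.Agent.H.MP_b3c6db_nt.NC.LowA
import Pool.Agent.H.MP_b3c6db_nt.WI6
import Pool.Agent.H.MP_b3c6db_nt.LowerFinal

/-! The lower bound for the constant term times the `ℓ¹` norm of the coefficients. -/

namespace Pool.Agent.H.MP_b3c6db_nt

open Finset Filter Topology

private lemma LowC_res (k : ℕ) : (k : ZMod 4) = (1 : ZMod 4) ↔ k % 4 = 1 := by
  have h : (1 : ZMod 4) = ((1 : ℕ) : ZMod 4) := by rw [Nat.cast_one]
  rw [h, ZMod.natCast_eq_natCast_iff']

/-- primes `≡ 1 mod 4` up to `x`. -/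
private noncomputable def LowC_S (x : ℝ) : Finset ℕ :=
  (Icc 1 ⌊x⌋₊).filter (fun p => p.Prime ∧ p % 4 = 1)

private lemma LowC_theta (x : ℝ) : B3WI.thetaq (1 : ZMod 4) x = ∑ p ∈ LowC_S x, Real.log p := by
  unfold B3WI.thetaq LowC_S
  rw [sum_filter]
  refine sum_congr rfl fun k _ => ?_
  simp only [LowC_res]

private lemma LowC_ev : ∀ᶠ x : ℝ in atTop, x / 4 ≤ ∑ p ∈ LowC_S x, Real.log p := by
  have h1 := B3WI.thetaq_asymp (q := 4) (a := 1) (by decide)
  have h2 : ((Nat.totient 4 : ℕ) : ℝ)⁻¹ = 1 / 2 := by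
    have h3 : Nat.totient 4 = 2 := by decide
    rw [h3]
    norm_num
  rw [h2] at h1
  have h4 := h1.eventually (lt_mem_nhds (show (1 / 4 : ℝ) < 1 / 2 by norm_num))
  filter_upwards [h4, eventually_gt_atTop 0] with x hx hx0
  rw [lt_div_iff₀ hx0, LowC_theta] at hx
  linarith

private lemma LowC_log (S : Finset ℕ) (hS : ∀ p ∈ S, p.Prime) {k : ℕ} (hk : 1 ≤ k) :
    ∑ p ∈ S.filter (fun p => p ∣ k), Real.log p ≤ Real.log k := by
  have h1 : S.filter (fun p => p ∣ k) ⊆ k.primeFactors := by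
    intro p hp
    rw [mem_filter] at hp
    rw [Nat.mem_primeFactors]
    exact ⟨hS p hp.1, hp.2, by omega⟩
  have h2 : ∑ p ∈ S.filter (fun p => p ∣ k), Real.log p ≤ ∑ p ∈ k.primeFactors, Real.log p := by
    refine sum_le_sum_of_subset_of_nonneg h1 fun p hp _ => ?_
    exact Real.log_natCast_nonneg p
  refine h2.trans ?_
  have h3 : ∑ p ∈ k.primeFactors, Real.log p = Real.log (∏ p ∈ k.primeFactors, (p : ℝ)) := by
    rw [Real.log_prod]
    intro p hp
    have := (Nat.prime_of_mem_primeFactors hp).pos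
    positivity
  rw [h3]
  have h4 : (∏ p ∈ k.primeFactors, (p : ℝ)) = ((∏ p ∈ k.primeFactors, p : ℕ) : ℝ) := by
    push_cast
    rfl
  rw [h4]
  have h5 : 0 < ∏ p ∈ k.primeFactors, p :=
    prod_pos fun p hp => (Nat.prime_of_mem_primeFactors hp).pos
  refine Real.log_le_log (by exact_mod_cast h5) ?_
  exact_mod_cast Nat.le_of_dvd hk (Nat.prod_primeFactors_dvd k)

private lemma LowC_swap {H : ℕ} (c : ℕ → ℝ) (hH : 2 ≤ H) (S : Finset ℕ)
    (hS : ∀ p ∈ S, p.Prime) :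
    ∑ p ∈ S, Real.log p * ∑ k ∈ (Icc 1 H).filter (fun k => p ∣ k), |c k| ≤
      (∑ k ∈ range (H + 1), |c k|) * Real.log H := by
  have h1 : ∑ p ∈ S, Real.log p * ∑ k ∈ (Icc 1 H).filter (fun k => p ∣ k), |c k| =
      ∑ k ∈ Icc 1 H, |c k| * ∑ p ∈ S.filter (fun p => p ∣ k), Real.log p := by
    simp_rw [sum_filter, mul_sum]
    rw [sum_comm]
    refine sum_congr rfl fun k _ => sum_congr rfl fun p _ => ?_
    split_ifs
    · ring
    · ring
  rw [h1]
  have hH1 : (1 : ℝ) ≤ H := by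
    have : 1 ≤ H := by omega
    exact_mod_cast this
  have hl : 0 ≤ Real.log H := Real.log_nonneg hH1
  have h2 : ∑ k ∈ Icc 1 H, |c k| * ∑ p ∈ S.filter (fun p => p ∣ k), Real.log p ≤
      ∑ k ∈ Icc 1 H, |c k| * Real.log H := by
    refine sum_le_sum fun k hk => ?_
    rw [mem_Icc] at hk
    refine mul_le_mul_of_nonneg_left ?_ (abs_nonneg _)
    refine (LowC_log S hS hk.1).trans ?_
    have hk0 : (0 : ℝ) < k := by exact_mod_cast hk.1
    exact Real.log_le_log hk0 (by exact_mod_cast hk.2)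
  refine h2.trans ?_
  rw [← sum_mul]
  refine mul_le_mul_of_nonneg_right ?_ hl
  refine sum_le_sum_of_subset_of_nonneg ?_ fun k _ _ => abs_nonneg _
  intro k hk
  rw [mem_Icc] at hk
  rw [mem_range]
  omega

private lemma LowC_main {H : ℕ} {c : ℕ → ℝ} (hc : Admissible H c)
    (hH : 2 ≤ H) {x : ℝ} (hx : 0 < x)
    (hS : x / 4 ≤ ∑ p ∈ LowC_S x, Real.log p) :
    (1 / Real.sqrt x - c 0) * (x / 4) ≤ (∑ k ∈ range (H + 1), |c k|) * Real.log H := by
  have hH1 : (1 : ℝ) ≤ H := by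
    have : 1 ≤ H := by omega
    exact_mod_cast this
  have hl : 0 ≤ Real.log H := Real.log_nonneg hH1
  have hA : 0 ≤ ∑ k ∈ range (H + 1), |c k| := sum_nonneg fun k _ => abs_nonneg _
  rcases le_or_gt (1 / Real.sqrt x - c 0) 0 with h0 | h0
  · exact (mul_nonpos_of_nonpos_of_nonneg h0 (by positivity)).trans (mul_nonneg hA hl)
  have hmem : ∀ p ∈ LowC_S x, p.Prime ∧ p % 4 = 1 ∧ (p : ℝ) ≤ x := by
    intro p hp
    unfold LowC_S at hp
    rw [mem_filter, mem_Icc] at hp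
    exact ⟨hp.2.1, hp.2.2, (Nat.le_floor_iff hx.le).1 hp.1.2⟩
  have h1 := LowC_swap c hH (LowC_S x) (fun p hp => (hmem p hp).1)
  refine le_trans ?_ h1
  calc (1 / Real.sqrt x - c 0) * (x / 4) ≤
      (1 / Real.sqrt x - c 0) * ∑ p ∈ LowC_S x, Real.log p := mul_le_mul_of_nonneg_left hS h0.le
    _ = ∑ p ∈ LowC_S x, Real.log p * (1 / Real.sqrt x - c 0) := by rw [mul_comm, sum_mul]
    _ ≤ _ := by
      refine sum_le_sum fun p hp => ?_
      obtain ⟨hp1, hp2, hp3⟩ := hmem p hp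
      refine mul_le_mul_of_nonneg_left ?_ (Real.log_natCast_nonneg p)
      have h2 := nn_local hc hp1 hp2
      have h4 : ∑ k ∈ (Icc 1 H).filter (fun k => p ∣ k), c k ≤
          ∑ k ∈ (Icc 1 H).filter (fun k => p ∣ k), |c k| := sum_le_sum fun k _ => le_abs_self _
      have hp0 : (0 : ℝ) < p := by exact_mod_cast hp1.pos
      have h3 : 1 / Real.sqrt x ≤ 1 / Real.sqrt p :=
        one_div_le_one_div_of_le (Real.sqrt_pos.2 hp0) (Real.sqrt_le_sqrt hp3)
      linarith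

/-- For every admissible polynomial, of any signs, the constant term times the `ℓ¹` norm of the
coefficients is at least a constant over `log H`. -/
theorem nc_l1 : ∃ a : ℝ, 0 < a ∧ ∀ H : ℕ, 2 ≤ H → ∀ c : ℕ → ℝ, Admissible H c →
    a / Real.log H ≤ c 0 * ∑ k ∈ range (H + 1), |c k| := by
  obtain ⟨x0, hx0⟩ := (LowC_ev.and (eventually_ge_atTop 1)).exists_forall_of_atTop
  set M : ℝ := max x0 1 with hM
  have hM1 : 1 ≤ M := le_max_right _ _
  have hM0 : x0 ≤ M := le_max_left _ _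
  have hl2 : 0 < Real.log 2 := Real.log_pos (by norm_num)
  set K : ℝ := M / Real.log 2 + 16 with hK
  have hK0 : 0 < K := by positivity
  refine ⟨3 / 4 / K, by positivity, fun H hH c hc => ?_⟩
  have hH2 : (2 : ℝ) ≤ H := by exact_mod_cast hH
  have hlH : Real.log 2 ≤ Real.log H := Real.log_le_log (by norm_num) hH2
  have hl0 : 0 < Real.log H := lt_of_lt_of_le hl2 hlH
  set A : ℝ := ∑ k ∈ range (H + 1), |c k| with hA
  have hA1 : 1 ≤ A := by
    have h3 := hc.2
    unfold cosPoly at h3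
    have h4 : c 0 + ∑ k ∈ Icc 1 H, c k = 1 := by simpa using h3
    have h5 : A = |c 0| + ∑ k ∈ Icc 1 H, |c k| := by
      rw [hA, Finset.range_eq_Ico, Finset.sum_eq_sum_Ico_succ_bot (by omega : 0 < H + 1)]
      rfl
    have h6 : ∑ k ∈ Icc 1 H, c k ≤ ∑ k ∈ Icc 1 H, |c k| := sum_le_sum fun k _ => le_abs_self _
    have h7 := le_abs_self (c 0)
    linarith
  have hA0 : 0 < A := by linarith
  set L : ℝ := A * Real.log H with hL
  have hL0 : 0 < L := mul_pos hA0 hl0
  have hlL : Real.log 2 ≤ L := by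
    rw [hL]
    nlinarith
  set y : ℝ := K * L with hy
  have hyM : M ≤ y := by
    have h1 : M ≤ M / Real.log 2 * L := by
      calc M = M / Real.log 2 * Real.log 2 := by field_simp
        _ ≤ M / Real.log 2 * L := mul_le_mul_of_nonneg_left hlL (by positivity)
    have h2 : y = M / Real.log 2 * L + 16 * L := by
      rw [hy, hK]
      ring
    rw [h2]
    linarith
  have hy1 : 1 ≤ y := hM1.trans hyM
  have hy0 : 0 < y := by linarith
  have hy16 : 16 * L ≤ y := by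
    rw [hy]
    refine mul_le_mul_of_nonneg_right ?_ hL0.le
    rw [hK]
    have : 0 ≤ M / Real.log 2 := by positivity
    linarith
  have hx : x0 ≤ y ^ 2 := by nlinarith
  have h1 := LowC_main hc hH (x := y ^ 2) (by positivity) (hx0 _ hx).1
  rw [Real.sqrt_sq hy0.le, ← hA, ← hL] at h1
  have h2 : (1 / y - c 0) * (y ^ 2 / 4) = y / 4 - c 0 * y ^ 2 / 4 := by
    field_simp
  rw [h2] at h1
  have h4 : y / 4 - y / 16 ≤ c 0 * y ^ 2 / 4 := by linarith
  have h5 : 3 / 4 * y ≤ (c 0 * y) * y := by nlinarith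
  have h6 : 3 / 4 ≤ c 0 * y := le_of_mul_le_mul_right h5 hy0
  rw [div_le_iff₀ hl0, div_le_iff₀ hK0]
  have h7 : c 0 * A * Real.log H * K = c 0 * y := by
    rw [hy, hL]
    ring
  rw [h7]
  exact h6

end Pool.Agent.H.MP_b3c6db_nt
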