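import Pool.Agent.H.MP_b3c6db_nt.NC.WtA

/-! Rankin's trick for the weights `ww`.

PROOF: the sum `S(n) = ∑_{d ∣ n} Arho x d * bet x (n/d) * d^s` is multiplicative (induction
`Nat.recOnPosPrimePosCoprime`, as in `sum_bet`); for `n = p^k`, `y = x p * p^s < 1`, it is
`(1-x) (1-y^k)/(1-y) + y^k ≤ (1-x)/(1-y)` because `(1-x)/(1-y) ≥ 1` (`x ≤ y`, `s ≥ 0`, `p ≥ 1`). -/

namespace Pool.Agent.H.MP_b3c6db_nt

open Finset

/-- The case of one prime. -/
theorem NCRank_real {x q : ℝ} (hx0 : 0 ≤ x) (hq : 1 ≤ q) (hy : x * q < 1) (k : ℕ) :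
    0 ≤ (1 - x) * ∑ j ∈ range k, (x * q) ^ j + (x * q) ^ k ∧
      (1 - x) * ∑ j ∈ range k, (x * q) ^ j + (x * q) ^ k ≤ (1 - x) / (1 - x * q) := by
  have hxy : x ≤ x * q := le_mul_of_one_le_right hx0 hq
  have hy0 : 0 ≤ x * q := hx0.trans hxy
  have hx1 : 0 ≤ 1 - x := by linarith
  have hG := geom_sum_mul_neg (x * q) k
  have hG0 : 0 ≤ ∑ j ∈ range k, (x * q) ^ j := Finset.sum_nonneg fun j _ => pow_nonneg hy0 j
  have hk0 : 0 ≤ (x * q) ^ k := pow_nonneg hy0 k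
  refine ⟨add_nonneg (mul_nonneg hx1 hG0) hk0, ?_⟩
  rw [le_div_iff₀ (by linarith), add_mul, mul_assoc, hG]
  nlinarith [mul_nonneg hk0 (sub_nonneg.mpr hxy)]

theorem NCRank_prime (x : ℕ → ℝ) (s : ℝ) {p k : ℕ}
    (hp : p.Prime) :
    ∑ d ∈ (p ^ k).divisors, Arho x d * bet x (p ^ k / d) * (d : ℝ) ^ s =
      (1 - x p) * ∑ j ∈ range k, (x p * (p : ℝ) ^ s) ^ j + (x p * (p : ℝ) ^ s) ^ k := by
  have hpp : (0 : ℝ) ≤ (p : ℝ) := Nat.cast_nonneg p
  have hpow : ∀ j : ℕ, (((p ^ j : ℕ)) : ℝ) ^ s = ((p : ℝ) ^ s) ^ j := by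
    intro j
    rw [Nat.cast_pow, ← Real.rpow_natCast, ← Real.rpow_mul hpp, mul_comm, Real.rpow_mul hpp,
      Real.rpow_natCast]
  rw [Nat.sum_divisors_prime_pow hp, Finset.sum_range_succ, Finset.mul_sum]
  have hlast : Arho x (p ^ k) * bet x (p ^ k / p ^ k) * (((p ^ k : ℕ)) : ℝ) ^ s =
      (x p * (p : ℝ) ^ s) ^ k := by
    rw [Nat.div_self (pow_pos hp.pos k), Arho_prime_pow x hp, hpow, mul_pow]
    unfold bet
    rw [Nat.primeFactors_one, Finset.prod_empty, mul_one]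
  rw [hlast]
  congr 1
  refine Finset.sum_congr rfl fun j hj => ?_
  rw [Finset.mem_range] at hj
  rw [Nat.pow_div hj.le hp.pos, Arho_prime_pow x hp, hpow, mul_pow]
  unfold bet
  rw [Nat.primeFactors_prime_pow (by omega) hp, Finset.prod_singleton]
  ring

theorem NCRank_mul (x : ℕ → ℝ) (s : ℝ) {a b : ℕ} (ha : a ≠ 0) (hb : b ≠ 0)
    (hab : Nat.Coprime a b) :
    ∑ d ∈ (a * b).divisors, Arho x d * bet x (a * b / d) * (d : ℝ) ^ s =
      (∑ d ∈ a.divisors, Arho x d * bet x (a / d) * (d : ℝ) ^ s) *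
        ∑ d ∈ b.divisors, Arho x d * bet x (b / d) * (d : ℝ) ^ s := by
  rw [sum_divisors_coprime _ a b hab, Finset.sum_mul_sum]
  refine Finset.sum_congr rfl fun m hm => Finset.sum_congr rfl fun n hn => ?_
  rw [Nat.mem_divisors] at hm hn
  have hm0 : m ≠ 0 := fun h => ha (by rw [h] at hm; exact Nat.eq_zero_of_zero_dvd hm.1)
  have hn0 : n ≠ 0 := fun h => hb (by rw [h] at hn; exact Nat.eq_zero_of_zero_dvd hn.1)
  have hcop : Nat.Coprime (a / m) (b / n) :=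
    Nat.Coprime.coprime_dvd_left (Nat.div_dvd_of_dvd hm.1)
      (Nat.Coprime.coprime_dvd_right (Nat.div_dvd_of_dvd hn.1) hab)
  have hbet : bet x (a * b / (m * n)) = bet x (a / m) * bet x (b / n) := by
    rw [Nat.mul_div_mul_comm hm.1 hn.1]
    unfold bet
    rw [Nat.Coprime.primeFactors_mul hcop, Finset.prod_union hcop.disjoint_primeFactors]
  rw [hbet, Arho_mul x hm0 hn0, Nat.cast_mul,
    Real.mul_rpow (Nat.cast_nonneg m) (Nat.cast_nonneg n)]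
  ring

theorem NCRank_main (x : ℕ → ℝ) (hx0 : ∀ p, 0 ≤ x p) (s : ℝ) (hs : 0 ≤ s) (n : ℕ) :
    n ≠ 0 → (∀ p ∈ n.primeFactors, x p * (p : ℝ) ^ s < 1) →
    0 ≤ ∑ d ∈ n.divisors, Arho x d * bet x (n / d) * (d : ℝ) ^ s ∧
      ∑ d ∈ n.divisors, Arho x d * bet x (n / d) * (d : ℝ) ^ s ≤
        ∏ p ∈ n.primeFactors, (1 - x p) / (1 - x p * (p : ℝ) ^ s) := by
  induction n using Nat.recOnPosPrimePosCoprime with
  | zero => exact fun h => absurd rfl h
  | one =>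
    intro _ _
    have h1 : ∑ d ∈ Nat.divisors 1, Arho x d * bet x (1 / d) * (d : ℝ) ^ s = 1 := by
      rw [Nat.divisors_one, Finset.sum_singleton, Nat.div_self one_pos, Arho_one, Nat.cast_one,
        Real.one_rpow]
      unfold bet
      rw [Nat.primeFactors_one, Finset.prod_empty]
      norm_num
    rw [h1, Nat.primeFactors_one, Finset.prod_empty]
    exact ⟨zero_le_one, le_rfl⟩
  | prime_pow p k hp hk =>
    intro _ h
    rw [Nat.primeFactors_prime_pow hk.ne' hp] at h ⊢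
    rw [Finset.prod_singleton, NCRank_prime x s hp]
    have hq : (1 : ℝ) ≤ (p : ℝ) ^ s :=
      Real.one_le_rpow (by exact_mod_cast hp.one_lt.le) hs
    exact NCRank_real (hx0 p) hq (h p (Finset.mem_singleton_self p)) k
  | coprime a b ha hb hab iha ihb =>
    intro _ h
    have ha0 : a ≠ 0 := by omega
    have hb0 : b ≠ 0 := by omega
    rw [Nat.Coprime.primeFactors_mul hab] at h ⊢
    rw [Finset.prod_union hab.disjoint_primeFactors, NCRank_mul x s ha0 hb0 hab]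
    have h1 := iha ha0 fun p hp => h p (Finset.mem_union_left _ hp)
    have h2 := ihb hb0 fun p hp => h p (Finset.mem_union_right _ hp)
    exact ⟨mul_nonneg h1.1 h2.1, mul_le_mul h1.2 h2.2 h2.1 (h1.1.trans h1.2)⟩

theorem rankin (x : ℕ → ℝ) (hx0 : ∀ p, 0 ≤ x p) (s : ℝ) (hs : 0 ≤ s) (N : ℕ) (hN : N ≠ 0)
    (hx : ∀ p ∈ N.primeFactors, x p * (p : ℝ) ^ s < 1) :
    ∑ d ∈ N.divisors, ww x N d * (d : ℝ) ^ s ≤
      ∏ p ∈ N.primeFactors, (1 - x p) / (1 - x p * (p : ℝ) ^ s) :=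
  (NCRank_main x hx0 s hs N hN hx).2

end Pool.Agent.H.MP_b3c6db_nt
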