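import Pool.Agent.H.MP_b3c6db_nt.NC.XDef

/-! The primes `YY P < p ≤ P` and `p > P`.

PROOF of `xx_mid`: `L = log P`, `p > L^8`, `log p ≤ L`, `x = 300 L/(√p log p)`. `√p ≥ L^4`, `log p ≥ 1`, so
`x ≤ 300/L^3 ≤ 1/6` for large `L`. `x p = 300 (L/log p) √p ≥ 300 √p > 1`, and `x p - 1 ≥ (299/300) x p`, so
`√(2p)/(x p - 1) ≤ (300/299) √2 √p log p/(300 L √p) ≤ log p/(100 L)`; `0 ≤ 1 - x ≤ 1`.
`x (1 + log p/(100 L)) ≤ 303 L/(√p log p) ≤ 303 L p^(-1/2) ≤ p^(-1/5)` because `p^(3/10) ≥ L^(12/5) ≥ 303 L`. -/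

set_option autoImplicit false

namespace Pool.Agent.H.MP_b3c6db_nt

open Finset Filter

theorem xx_mid : ∀ᶠ P : ℝ in atTop, ∀ p : ℕ, p.Prime → YY P < p → (p : ℝ) ≤ P →
    0 < xx P p ∧ xx P p ≤ 1 / 6 ∧ 1 < xx P p * p ∧
      (1 - xx P p) * (Real.sqrt (2 * p) / (xx P p * p - 1)) ≤ Real.log p / (100 * Real.log P) ∧
      xx P p * (1 + Real.log p / (100 * Real.log P)) ≤ Real.exp (-(Real.log p / 5)) := by
  filter_upwards [Real.tendsto_log_atTop.eventually_ge_atTop 303] with P hL p hp hY hP
  have hx : xx P p = 300 * Real.log P / (Real.sqrt p * Real.log p) := by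
    rw [xx, if_neg (not_le.2 hY), if_pos hP]
  rw [hx]
  rw [YY] at hY
  have hp0 : (0 : ℝ) < p := by exact_mod_cast hp.pos
  have hlP : Real.log p ≤ Real.log P := Real.log_le_log hp0 hP
  have hL8 : (1 : ℝ) < Real.log P ^ 8 := one_lt_pow₀ (by linarith) (by norm_num)
  -- log p is at least 8 log L
  have hlog8 : 8 * Real.log (Real.log P) ≤ Real.log p := by
    have := Real.log_le_log (by positivity) hY.le
    rwa [Real.log_pow] at this
  have hlogL : 1 ≤ Real.log (Real.log P) := by
    rw [Real.le_log_iff_exp_le (by linarith)]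
    linarith [Real.exp_one_lt_d9]
  have hlp : 1 ≤ Real.log p := by linarith
  have hsp : Real.log P ^ 4 ≤ Real.sqrt p := by
    apply Real.le_sqrt_of_sq_le
    calc (Real.log P ^ 4) ^ 2 = Real.log P ^ 8 := by ring
      _ ≤ (p : ℝ) := hY.le
  have hs2 : Real.sqrt p * Real.sqrt p = p := Real.mul_self_sqrt hp0.le
  have hs0 : 0 < Real.sqrt p := Real.sqrt_pos.2 hp0
  have hexp : Real.sqrt p = Real.exp (Real.log p / 2) := by
    rw [Real.sqrt_eq_rpow, Real.rpow_def_of_pos hp0]
    ring_nf
  set L := Real.log P with hLdef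
  set s := Real.sqrt p with hsdef
  set l := Real.log (p : ℝ) with hldef
  have hL0 : 0 < L := by linarith
  have hl0 : 0 < l := by linarith
  have hL4 : 1800 * L ≤ L ^ 4 := by
    have h1 : (303 : ℝ) ^ 3 ≤ L ^ 3 := pow_le_pow_left₀ (by norm_num) hL 3
    calc 1800 * L ≤ L ^ 3 * L := by
          apply mul_le_mul_of_nonneg_right _ hL0.le
          linarith
      _ = L ^ 4 := by ring
  have hx0 : 0 < 300 * L / (s * l) := by positivity
  have hx6 : 300 * L / (s * l) ≤ 1 / 6 := by
    rw [div_le_iff₀ (by positivity)]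
    have : s ≤ s * l := le_mul_of_one_le_right hs0.le hlp
    linarith
  have hxp : 300 * L / (s * l) * p = 300 * (L / l) * s := by
    rw [← hs2]
    field_simp
  have hLl : 1 ≤ L / l := (one_le_div hl0).2 hlP
  have hs1 : 1 ≤ s := by
    have : (303 : ℝ) ≤ L ^ 4 := by linarith
    linarith
  have hw : 300 ≤ 300 * (L / l) * s := by
    have : 1 ≤ (L / l) * s := one_le_mul_of_one_le_of_one_le hLl hs1
    linarith [this, mul_assoc 300 (L / l) s]
  refine ⟨hx0, hx6, by rw [hxp]; linarith, ?_, ?_⟩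
  · rw [hxp]
    have h2 : Real.sqrt (2 * p) = Real.sqrt 2 * s := Real.sqrt_mul (by norm_num) _
    have h3 : Real.sqrt 2 ≤ 2 := by
      rw [Real.sqrt_le_left (by norm_num)]
      norm_num
    have h4 : Real.sqrt (2 * p) / (300 * (L / l) * s - 1) ≤ l / (100 * L) := by
      rw [h2, div_le_div_iff₀ (by linarith) (by positivity)]
      have h5 : l * (300 * (L / l) * s) = 300 * L * s := by
        field_simp
      have h6 : l * (300 * (L / l) * s - 1) = 300 * L * s - l := by
        rw [mul_sub, h5, mul_one]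
      rw [h6]
      have h7 : Real.sqrt 2 * s * (100 * L) ≤ 2 * s * (100 * L) := by
        apply mul_le_mul_of_nonneg_right _ (by positivity)
        exact mul_le_mul_of_nonneg_right h3 hs0.le
      have h8 : L ≤ L * s := le_mul_of_one_le_right hL0.le hs1
      nlinarith
    have h5 : 0 ≤ Real.sqrt (2 * p) / (300 * (L / l) * s - 1) :=
      div_nonneg (Real.sqrt_nonneg _) (by linarith)
    calc (1 - 300 * L / (s * l)) * (Real.sqrt (2 * p) / (300 * (L / l) * s - 1))
        ≤ 1 * (Real.sqrt (2 * p) / (300 * (L / l) * s - 1)) := by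
          apply mul_le_mul_of_nonneg_right _ h5
          linarith
      _ = Real.sqrt (2 * p) / (300 * (L / l) * s - 1) := one_mul _
      _ ≤ l / (100 * L) := h4
  · have h1 : l / (100 * L) ≤ 1 / 100 := by
      rw [div_le_div_iff₀ (by positivity) (by norm_num)]
      linarith
    have h2 : L ^ 2 ≤ Real.exp (3 * l / 10) := by
      have h3 : L ^ 2 = Real.exp (2 * Real.log L) := by
        rw [show (2 : ℝ) * Real.log L = Real.log L + Real.log L by ring, Real.exp_add,
          Real.exp_log hL0]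
        ring
      rw [h3]
      apply Real.exp_le_exp.2
      linarith
    have h3 : s = Real.exp (3 * l / 10) * Real.exp (l / 5) := by
      rw [hexp, ← Real.exp_add]
      ring_nf
    have h4 : 303 * L ≤ Real.exp (3 * l / 10) := by
      refine le_trans ?_ h2
      rw [sq]
      exact mul_le_mul_of_nonneg_right hL hL0.le
    calc 300 * L / (s * l) * (1 + l / (100 * L)) ≤ 300 * L / (s * l) * (1 + 1 / 100) := by
          apply mul_le_mul_of_nonneg_left _ hx0.le
          linarith
      _ = 303 * L / (s * l) := by ring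
      _ ≤ 303 * L / s := by
          apply div_le_div_of_nonneg_left (by positivity) hs0
          exact le_mul_of_one_le_right hs0.le hlp
      _ ≤ Real.exp (3 * l / 10) / s := div_le_div_of_nonneg_right h4 hs0.le
      _ = Real.exp (-(l / 5)) := by
          rw [Real.exp_neg, h3]
          have := Real.exp_pos (3 * l / 10)
          have := Real.exp_pos (l / 5)
          field_simp

theorem xx_large : ∀ᶠ P : ℝ in atTop, ∀ p : ℕ, p.Prime → P < p → xx P p = 0 := by
  have h := (Real.isLittleO_pow_log_id_atTop (n := 8)).bound (show (0 : ℝ) < 1 by norm_num)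
  filter_upwards [h, eventually_ge_atTop 1] with P hP h1 p _ hp
  have h2 : YY P ≤ P := by
    rw [YY]
    have := hP
    simp only [id, one_mul, Real.norm_eq_abs] at this
    rw [abs_of_nonneg (by linarith : (0 : ℝ) ≤ P)] at this
    exact (le_abs_self _).trans this
  rw [xx, if_neg (not_le.2 (lt_of_le_of_lt h2 hp)), if_neg (not_le.2 hp)]

end Pool.Agent.H.MP_b3c6db_nt
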