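import Pool.Agent.H.MP_b3c6db_nt.NC.XS
import Pool.Agent.H.MP_b3c6db_nt.NC.XM
import Pool.Agent.H.MP_b3c6db_nt.NC.Rank

/-! The weight of the large `d`.

PROOF of `nc_sum_inv_sqrt`: `∑_{p ≤ P} 1/√p ≤ ∑_{n ≤ √P} 1/√n + (2/log P) ∑_{√P < p ≤ P} log p/√p ≤ 2 P^(1/4) + (2/log P) 3 √P`
(`sum_log_sqrt_subset`), `≤ 8 √P/log P` for large `P`.
PROOF of `tail_small` (`C₁ = 24000`): `s = s0 P/2`, `L = log P`. `rankin`: the sum over `d > D` is at most
`D^(-s) ∏_{p ∣ N} (1-x)/(1-x p^s)`. For `p ≤ YY P`: `x p^s = p^(-s0/2) =: y`, `x = y²`, the factor is `1 + y ≤ 2 ≤ e`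
(also `y < 1`), product `≤ exp (YY P)` (at most `YY P` primes). For `YY P < p ≤ P`: `s log p ≤ s L ≤ 1/3`, so
`p^s ≤ 1 + 2 s log p ≤ 2`, `x p^s ≤ 1/3 < 1`, the factor is `1 + x (p^s - 1)/(1 - x p^s) ≤ 1 + 3 x s log p =
1 + 900 s L/√p ≤ exp (900 s L/√p)`; product `≤ exp (900 s L 8 √P/L) = exp (7200 s √P)`. Since
`D^(-s) ≤ exp (-24000 s √P)` the sum is at most `exp (YY P - 16800 s √P) ≤ 1/√P`, because `s √P` grows like
`√P/(L^4 log L)`, faster than `YY P + log P = L^8 + L`. -/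

set_option autoImplicit false

namespace Pool.Agent.H.MP_b3c6db_nt

open Finset Filter

private theorem NCTail_exp (L : ℝ) (hL : 10 ^ 16 ≤ L) :
    19200 * L ^ 5 * (L ^ 8 + L / 2) ≤ 16800 * Real.exp (L / 2) := by
  have hL0 : 0 ≤ L := le_trans (by positivity) hL
  have h1 := Real.pow_div_factorial_le_exp (L / 2) (by linarith) 14
  have h2 : ((Nat.factorial 14 : ℕ) : ℝ) = 87178291200 := by norm_num [Nat.factorial]
  rw [h2] at h1
  have h3 : (L / 2) ^ 14 / 87178291200 = L ^ 13 * (L / (16384 * 87178291200)) := by ring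
  have h4 : 2 ≤ L / (16384 * 87178291200) := by
    rw [le_div_iff₀ (by norm_num)]
    refine le_trans ?_ hL
    norm_num
  have h13 : 0 ≤ L ^ 13 := by positivity
  have h5 : 2 * L ^ 13 ≤ Real.exp (L / 2) := by
    rw [h3] at h1
    nlinarith
  have h1L : (1 : ℝ) ≤ L := le_trans (by norm_num) hL
  have h6 : L ^ 6 ≤ L ^ 13 := pow_le_pow_right₀ h1L (by norm_num)
  have e : 19200 * L ^ 5 * (L ^ 8 + L / 2) = 19200 * L ^ 13 + 9600 * L ^ 6 := by ring
  rw [e]
  linarith

private theorem NCTail_small {p : ℕ} (hp : p.Prime) {s : ℝ} (hs : 0 < s) :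
    ((p : ℝ) ^ (-(2 * s))) * (p : ℝ) ^ s < 1 ∧
    (1 - (p : ℝ) ^ (-(2 * s))) / (1 - (p : ℝ) ^ (-(2 * s)) * (p : ℝ) ^ s) ≤ Real.exp 1 := by
  have hp0 : (0 : ℝ) < p := by exact_mod_cast hp.pos
  have hp1 : (1 : ℝ) < p := by exact_mod_cast hp.one_lt
  have e1 : (p : ℝ) ^ (-(2 * s)) * (p : ℝ) ^ s = (p : ℝ) ^ (-s) := by
    rw [← Real.rpow_add hp0]
    congr 1
    ring
  have e2 : (p : ℝ) ^ (-(2 * s)) = ((p : ℝ) ^ (-s)) ^ 2 := by
    rw [← Real.rpow_natCast, ← Real.rpow_mul hp0.le]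
    congr 1
    push_cast
    ring
  have hy1 : (p : ℝ) ^ (-s) < 1 := Real.rpow_lt_one_of_one_lt_of_neg hp1 (by linarith)
  have hy0 : 0 < (p : ℝ) ^ (-s) := Real.rpow_pos_of_pos hp0 _
  rw [e1, e2]
  refine ⟨hy1, ?_⟩
  have hd : 0 < 1 - (p : ℝ) ^ (-s) := by linarith
  have e3 : (1 - ((p : ℝ) ^ (-s)) ^ 2) / (1 - (p : ℝ) ^ (-s)) = 1 + (p : ℝ) ^ (-s) := by
    rw [div_eq_iff hd.ne']
    ring
  rw [e3]
  have := Real.add_one_le_exp (1 : ℝ)
  linarith

private theorem NCTail_mid {x t : ℝ} (hx0 : 0 < x) (hx : x ≤ 1 / 6) (ht0 : 0 ≤ t)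
    (ht : t ≤ 1 / 3) :
    x * Real.exp t < 1 ∧ (1 - x) / (1 - x * Real.exp t) ≤ Real.exp (3 * x * t) := by
  have h1 : Real.exp t ≤ 1 + 2 * t := by
    refine (Real.exp_bound_div_one_sub_of_interval ht0 (by linarith)).trans ?_
    rw [div_le_iff₀ (by linarith)]
    nlinarith
  have h0 : 0 < Real.exp t := Real.exp_pos t
  have h2 : x * Real.exp t ≤ 1 / 3 := by nlinarith
  refine ⟨by linarith, ?_⟩
  have h3 : 0 < 1 - x * Real.exp t := by linarith
  have h4 : (1 - x) / (1 - x * Real.exp t) ≤ 1 + 3 * x * t := by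
    rw [div_le_iff₀ h3]
    have h5 : 0 ≤ x * t := mul_nonneg hx0.le ht0
    have h6 : x * Real.exp t ≤ x * (1 + 2 * t) := mul_le_mul_of_nonneg_left h1 hx0.le
    nlinarith
  have h7 := Real.add_one_le_exp (3 * x * t)
  linarith

private theorem NCTail_sqrt {P : ℝ} (hP : 0 < P) :
    Real.sqrt P = Real.exp (Real.log P / 2) := by
  rw [Real.exp_half, Real.exp_log hP]

theorem nc_sum_inv_sqrt : ∀ᶠ P : ℝ in atTop, ∀ S : Finset ℕ, (∀ p ∈ S, p.Prime ∧ (p : ℝ) ≤ P) →
    ∑ p ∈ S, 1 / Real.sqrt p ≤ 8 * Real.sqrt P / Real.log P := by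
  filter_upwards [Real.tendsto_log_atTop.eventually_ge_atTop 24, eventually_gt_atTop 1] with P hL hP
  intro S hS
  have hP0 : 0 < P := by linarith
  have hL0 : 0 < Real.log P := by linarith
  have hsq : 0 < Real.sqrt P := Real.sqrt_pos.mpr hP0
  rw [← Finset.sum_filter_add_sum_filter_not S (fun p : ℕ => (p : ℝ) ≤ Real.sqrt P)]
  have h1 : ∑ p ∈ S.filter (fun p : ℕ => (p : ℝ) ≤ Real.sqrt P), 1 / Real.sqrt p ≤
      2 * Real.sqrt (Real.sqrt P) :=
    sum_inv_sqrt_subset _ hsq.le _ fun p hp => by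
      rw [mem_filter] at hp
      exact ⟨(hS p hp.1).1, hp.2⟩
  have h2 : ∑ p ∈ S.filter (fun p : ℕ => ¬ (p : ℝ) ≤ Real.sqrt P), 1 / Real.sqrt p ≤
      2 / Real.log P * (3 * Real.sqrt P) := by
    have h3 : ∑ p ∈ S.filter (fun p : ℕ => ¬ (p : ℝ) ≤ Real.sqrt P), 1 / Real.sqrt p ≤
        2 / Real.log P *
          ∑ p ∈ S.filter (fun p : ℕ => ¬ (p : ℝ) ≤ Real.sqrt P), Real.log p / Real.sqrt p := by
      rw [mul_sum]
      refine sum_le_sum fun p hp => ?_
      rw [mem_filter, not_le] at hp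
      have hp0 : (0 : ℝ) < p := lt_trans hsq hp.2
      have h4 : Real.log P / 2 ≤ Real.log p := by
        rw [← Real.log_sqrt hP0.le]
        exact Real.log_le_log hsq hp.2.le
      have h5 : 0 < Real.sqrt (p : ℝ) := Real.sqrt_pos.mpr hp0
      have e : 2 / Real.log P * (Real.log p / Real.sqrt p) =
          (2 * Real.log p / Real.log P) / Real.sqrt p := by ring
      rw [e]
      refine div_le_div_of_nonneg_right ?_ h5.le
      rw [le_div_iff₀ hL0]
      linarith
    refine h3.trans (mul_le_mul_of_nonneg_left ?_ (by positivity))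
    refine sum_log_sqrt_subset _ hP0.le _ fun p hp => ?_
    rw [mem_filter] at hp
    exact hS p hp.1
  have h6 : Real.log P * Real.sqrt (Real.sqrt P) ≤ Real.sqrt P := by
    have e1 : Real.sqrt (Real.sqrt P) = Real.exp (Real.log P / 4) := by
      rw [NCTail_sqrt hsq, Real.log_sqrt hP0.le]
      congr 1
      ring
    have e2 : Real.sqrt P = Real.exp (Real.log P / 4) * Real.exp (Real.log P / 4) := by
      rw [NCTail_sqrt hP0, ← Real.exp_add]
      congr 1
      ring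
    rw [e1, e2]
    refine mul_le_mul_of_nonneg_right ?_ (Real.exp_pos _).le
    have h7 := Real.quadratic_le_exp_of_nonneg (show 0 ≤ Real.log P / 4 by linarith)
    nlinarith
  have h8 : 8 * Real.sqrt P / Real.log P =
      2 * (Real.sqrt P / Real.log P) + 2 / Real.log P * (3 * Real.sqrt P) := by ring
  rw [h8]
  have h9 : Real.sqrt (Real.sqrt P) ≤ Real.sqrt P / Real.log P := by
    rw [le_div_iff₀ hL0]
    linarith
  linarith

theorem tail_small : ∀ᶠ P : ℝ in atTop, ∀ (N : ℕ) (D : ℝ), N ≠ 0 →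
    (∀ p ∈ N.primeFactors, (p : ℝ) ≤ P) → Real.exp (24000 * Real.sqrt P) ≤ D →
    ∑ d ∈ N.divisors.filter (fun d : ℕ => D < (d : ℝ)), ww (xx P) N d ≤ 1 / Real.sqrt P := by
  filter_upwards [xx_nonneg, xx_mid, nc_sum_inv_sqrt,
    Real.tendsto_log_atTop.eventually_ge_atTop (10 ^ 16), eventually_gt_atTop 1] with
    P hx0 hmid hinv hL hP N D hN hNP hD
  have hP0 : 0 < P := by linarith
  obtain ⟨L, hLdef⟩ : ∃ L, L = Real.log P := ⟨_, rfl⟩
  rw [← hLdef] at hL
  have hL1 : (1 : ℝ) ≤ L := le_trans (by norm_num) hL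
  have hL3 : (3 : ℝ) ≤ L := le_trans (by norm_num) hL
  have hL0 : 0 < L := by linarith
  have hloglog : 1 ≤ Real.log L := by
    rw [Real.le_log_iff_exp_le hL0]
    have := Real.exp_one_lt_d9
    linarith
  have hlogL : Real.log L ≤ L := by
    have := Real.log_le_sub_one_of_pos hL0
    linarith
  have hYY : YY P = L ^ 8 := by
    unfold YY
    rw [hLdef]
  have hsqY : Real.sqrt (YY P) = L ^ 4 := by
    rw [hYY, show L ^ 8 = (L ^ 4) ^ 2 by ring, Real.sqrt_sq (by positivity)]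
  have hlogY : Real.log (YY P) = 8 * Real.log L := by
    rw [hYY, Real.log_pow]
    norm_num
  obtain ⟨s, hsdef⟩ : ∃ s, s = 1 / (19200 * L ^ 4 * Real.log L) := ⟨_, rfl⟩
  have hs0 : s0 P = 2 * s := by
    unfold s0
    rw [hsqY, hlogY, hsdef]
    have : Real.log L ≠ 0 := by linarith
    field_simp
    norm_num
  have hden : 0 < 19200 * L ^ 4 * Real.log L := by
    have : 0 < Real.log L := by linarith
    positivity
  have hspos : 0 < s := by
    rw [hsdef]
    positivity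
  have hsL : s * L ≤ 1 / 3 := by
    rw [hsdef, div_mul_eq_mul_div, one_mul, div_le_iff₀ hden]
    have h1 : L ≤ L ^ 4 := le_self_pow₀ hL1 (by norm_num)
    have h2 : L ^ 4 ≤ L ^ 4 * Real.log L := le_mul_of_one_le_right (by positivity) hloglog
    have h3 : 0 ≤ L ^ 4 * Real.log L := by positivity
    nlinarith
  have hslow : L ^ 8 + L / 2 ≤ 16800 * s * Real.exp (L / 2) := by
    have h1 := NCTail_exp L hL
    have h2 : 1 / (19200 * L ^ 5) ≤ s := by
      rw [hsdef]
      refine one_div_le_one_div_of_le hden ?_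
      have : L ^ 4 * Real.log L ≤ L ^ 4 * L := mul_le_mul_of_nonneg_left hlogL (by positivity)
      nlinarith
    have h3 : L ^ 8 + L / 2 ≤ 16800 * Real.exp (L / 2) * (1 / (19200 * L ^ 5)) := by
      rw [mul_one_div, le_div_iff₀ (by positivity)]
      linarith
    refine h3.trans ?_
    have h4 : 0 ≤ 16800 * Real.exp (L / 2) := by positivity
    calc 16800 * Real.exp (L / 2) * (1 / (19200 * L ^ 5)) ≤ 16800 * Real.exp (L / 2) * s :=
          mul_le_mul_of_nonneg_left h2 h4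
      _ = 16800 * s * Real.exp (L / 2) := by ring
  have hsqP : Real.sqrt P = Real.exp (L / 2) := by
    rw [hLdef]
    exact NCTail_sqrt hP0
  have hsqP0 : 0 < Real.sqrt P := Real.sqrt_pos.mpr hP0
  -- the factors
  obtain ⟨h, hh⟩ : ∃ h : ℕ → ℝ, h = fun p : ℕ =>
    if (p : ℝ) ≤ YY P then 1 else 900 * s * L * (1 / Real.sqrt p) := ⟨_, rfl⟩
  have hfac : ∀ p ∈ N.primeFactors, xx P p ≤ 1 ∧ xx P p * (p : ℝ) ^ s < 1 ∧
      (1 - xx P p) / (1 - xx P p * (p : ℝ) ^ s) ≤ Real.exp (h p) := by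
    intro p hp
    have hpp : p.Prime := Nat.prime_of_mem_primeFactors hp
    have hp0 : (0 : ℝ) < p := by exact_mod_cast hpp.pos
    have hp1 : (1 : ℝ) < p := by exact_mod_cast hpp.one_lt
    by_cases hY : (p : ℝ) ≤ YY P
    · have e : xx P p = (p : ℝ) ^ (-(2 * s)) := by
        unfold xx
        rw [if_pos hY, hs0]
      have e2 : h p = 1 := by
        rw [hh]
        exact if_pos hY
      rw [e, e2]
      refine ⟨?_, (NCTail_small hpp hspos).1, (NCTail_small hpp hspos).2⟩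
      exact (Real.rpow_lt_one_of_one_lt_of_neg hp1 (by linarith)).le
    · have hY' : YY P < p := not_le.mp hY
      obtain ⟨hm1, hm2, -⟩ := hmid p hpp hY' (hNP p hp)
      have hlogp0 : 0 < Real.log p := Real.log_pos hp1
      have hlogp : Real.log p ≤ L := by
        rw [hLdef]
        exact Real.log_le_log hp0 (hNP p hp)
      have e : xx P p = 300 * L / (Real.sqrt p * Real.log p) := by
        unfold xx
        rw [if_neg hY, if_pos (hNP p hp), hLdef]
      have e2 : h p = 900 * s * L * (1 / Real.sqrt p) := by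
        rw [hh]
        exact if_neg hY
      have hsp : 0 < Real.sqrt (p : ℝ) := Real.sqrt_pos.mpr hp0
      have e3 : (p : ℝ) ^ s = Real.exp (s * Real.log p) := by
        rw [Real.rpow_def_of_pos hp0, mul_comm]
      have e4 : 3 * xx P p * (s * Real.log p) = h p := by
        rw [e, e2]
        field_simp
        norm_num
      have ht : s * Real.log p ≤ 1 / 3 :=
        (mul_le_mul_of_nonneg_left hlogp hspos.le).trans hsL
      obtain ⟨h3, h4⟩ := NCTail_mid hm1 hm2 (mul_nonneg hspos.le hlogp0.le) ht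
      rw [e4] at h4
      rw [e3]
      exact ⟨by linarith, h3, h4⟩
  have hprod : ∏ p ∈ N.primeFactors, (1 - xx P p) / (1 - xx P p * (p : ℝ) ^ s) ≤
      Real.exp (∑ p ∈ N.primeFactors, h p) := by
    rw [Real.exp_sum]
    refine prod_le_prod (fun p hp => ?_) fun p hp => (hfac p hp).2.2
    obtain ⟨h1, h2, -⟩ := hfac p hp
    exact div_nonneg (by linarith) (by linarith)
  have hsum : ∑ p ∈ N.primeFactors, h p ≤ L ^ 8 + 7200 * s * Real.sqrt P := by
    rw [← Finset.sum_filter_add_sum_filter_not N.primeFactors (fun p : ℕ => (p : ℝ) ≤ YY P)]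
    have h1 : ∑ p ∈ N.primeFactors.filter (fun p : ℕ => (p : ℝ) ≤ YY P), h p ≤ L ^ 8 := by
      have e1 : ∑ p ∈ N.primeFactors.filter (fun p : ℕ => (p : ℝ) ≤ YY P), h p =
          ∑ p ∈ N.primeFactors.filter (fun p : ℕ => (p : ℝ) ≤ YY P), (1 : ℝ) := by
        refine sum_congr rfl fun p hp => ?_
        rw [hh]
        exact if_pos (mem_filter.mp hp).2
      rw [e1, sum_const, nsmul_eq_mul, mul_one]
      have hY0 : 0 ≤ YY P := by
        rw [hYY]
        positivity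
      have hsub : N.primeFactors.filter (fun p : ℕ => (p : ℝ) ≤ YY P) ⊆ Ioc 0 ⌊YY P⌋₊ := by
        intro p hp
        rw [mem_filter] at hp
        rw [mem_Ioc]
        exact ⟨(Nat.prime_of_mem_primeFactors hp.1).pos, Nat.le_floor hp.2⟩
      have hc := card_le_card hsub
      rw [Nat.card_Ioc, Nat.sub_zero] at hc
      rw [← hYY]
      calc ((N.primeFactors.filter (fun p : ℕ => (p : ℝ) ≤ YY P)).card : ℝ) ≤ ⌊YY P⌋₊ := by
            exact_mod_cast hc
        _ ≤ YY P := Nat.floor_le hY0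
    have h2 : ∑ p ∈ N.primeFactors.filter (fun p : ℕ => ¬ (p : ℝ) ≤ YY P), h p ≤
        7200 * s * Real.sqrt P := by
      have e1 : ∑ p ∈ N.primeFactors.filter (fun p : ℕ => ¬ (p : ℝ) ≤ YY P), h p =
          900 * s * L * ∑ p ∈ N.primeFactors.filter (fun p : ℕ => ¬ (p : ℝ) ≤ YY P),
            1 / Real.sqrt p := by
        rw [mul_sum]
        refine sum_congr rfl fun p hp => ?_
        rw [hh]
        exact if_neg (mem_filter.mp hp).2
      rw [e1]
      have h3 := hinv (N.primeFactors.filter (fun p : ℕ => ¬ (p : ℝ) ≤ YY P)) fun p hp => by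
        rw [mem_filter] at hp
        exact ⟨Nat.prime_of_mem_primeFactors hp.1, hNP p hp.1⟩
      rw [← hLdef] at h3
      calc 900 * s * L * ∑ p ∈ N.primeFactors.filter (fun p : ℕ => ¬ (p : ℝ) ≤ YY P),
            1 / Real.sqrt p ≤ 900 * s * L * (8 * Real.sqrt P / L) :=
            mul_le_mul_of_nonneg_left h3 (by positivity)
        _ = 7200 * s * Real.sqrt P := by
            field_simp
            norm_num
    linarith
  -- the weights
  have hD0 : 0 < D := lt_of_lt_of_le (Real.exp_pos _) hD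
  have hww : ∀ d ∈ N.divisors, 0 ≤ ww (xx P) N d := fun d hd =>
    ww_nonneg (xx P) hx0 N (fun p hp => (hfac p hp).1) d (Nat.dvd_of_mem_divisors hd) hN
  have hDs : 0 < D ^ (-s) := Real.rpow_pos_of_pos hD0 _
  have hran : ∑ d ∈ N.divisors.filter (fun d : ℕ => D < (d : ℝ)), ww (xx P) N d ≤
      (∑ d ∈ N.divisors, ww (xx P) N d * (d : ℝ) ^ s) * D ^ (-s) := by
    rw [sum_mul]
    refine le_trans (sum_le_sum (g := fun d : ℕ => ww (xx P) N d * (d : ℝ) ^ s * D ^ (-s))
      fun d hd => ?_) (sum_le_sum_of_subset_of_nonneg (filter_subset _ _) fun d hd _ => ?_)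
    · rw [mem_filter] at hd
      have h1 : 1 ≤ (d : ℝ) ^ s * D ^ (-s) := by
        have h2 : D ^ s ≤ (d : ℝ) ^ s := Real.rpow_le_rpow hD0.le hd.2.le hspos.le
        have h3 : D ^ s * D ^ (-s) = 1 := by
          rw [← Real.rpow_add hD0, add_neg_cancel, Real.rpow_zero]
        rw [← h3]
        exact mul_le_mul_of_nonneg_right h2 hDs.le
      show ww (xx P) N d ≤ ww (xx P) N d * (d : ℝ) ^ s * D ^ (-s)
      rw [mul_assoc]
      exact le_mul_of_one_le_right (hww d hd.1) h1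
    · have h1 : (0 : ℝ) ≤ (d : ℝ) ^ s := Real.rpow_nonneg (Nat.cast_nonneg d) _
      exact mul_nonneg (mul_nonneg (hww d hd) h1) hDs.le
  have hDle : D ^ (-s) ≤ Real.exp (-(24000 * s * Real.sqrt P)) := by
    rw [Real.rpow_def_of_pos hD0]
    refine Real.exp_le_exp.mpr ?_
    have h1 : 24000 * Real.sqrt P ≤ Real.log D := (Real.le_log_iff_exp_le hD0).mpr hD
    nlinarith
  have hrk := rankin (xx P) hx0 s hspos.le N hN (fun p hp => (hfac p hp).2.1)
  have hX : (∑ d ∈ N.divisors, ww (xx P) N d * (d : ℝ) ^ s) ≤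
      Real.exp (L ^ 8 + 7200 * s * Real.sqrt P) :=
    (hrk.trans hprod).trans (Real.exp_le_exp.mpr hsum)
  calc ∑ d ∈ N.divisors.filter (fun d : ℕ => D < (d : ℝ)), ww (xx P) N d ≤
        (∑ d ∈ N.divisors, ww (xx P) N d * (d : ℝ) ^ s) * D ^ (-s) := hran
    _ ≤ Real.exp (L ^ 8 + 7200 * s * Real.sqrt P) *
        Real.exp (-(24000 * s * Real.sqrt P)) :=
        mul_le_mul hX hDle hDs.le (Real.exp_pos _).le
    _ = Real.exp (L ^ 8 + 7200 * s * Real.sqrt P + -(24000 * s * Real.sqrt P)) := by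
        rw [← Real.exp_add]
    _ ≤ Real.exp (-(L / 2)) := by
        refine Real.exp_le_exp.mpr ?_
        rw [← hsqP] at hslow
        linarith
    _ = 1 / Real.sqrt P := by
        rw [hsqP, Real.exp_neg, one_div]

end Pool.Agent.H.MP_b3c6db_nt
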