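import Pool.Agent.H.MP_b3c6db_nt.NC.WtA

/-! The mean of the Gauss sums.

PROOF of `gauss_sum_w`: for `d ≠ 0`, `gG (d² r) = ∑_{v ∣ d} Dlt v r` (Moebius inversion, definition of `Dlt` in Delta.lean;
it holds for every `d ≥ 1`). Exchange: the left side is `∑_{v ∣ N} Dlt v r ∑_{d ∣ N, v ∣ d} ww x N d = ∑_{v ∣ N} Arho x v Dlt v r`
(`sum_ww`). Terms with `v ∤ r.den` vanish (`Dlt_eq_zero`), terms `v ∣ r.den`, `v ∤ N` vanish on the right (`hr`), and
`Arho (fun p => (x p : ℂ)) v = (Arho x v : ℂ)`.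
PROOF of `NN_dvd`: if `Arho x v ≠ 0` then every prime factor of `v` is `≤ P`, and its exponent `e` in `v` satisfies
`2^e ≤ p^e ≤ r.den < 2^E`, so `v ∣ NN P E` (compare factorizations). -/

namespace Pool.Agent.H.MP_b3c6db_nt

open Finset Complex

private lemma NCWtB_inv (r : ℚ) : ∀ n : ℕ, n > 0 → ∑ i ∈ n.divisors, Dlt i r = gG ((n : ℚ) ^ 2 * r) := by
  have h := (ArithmeticFunction.sum_eq_iff_sum_mul_moebius_eq (R := ℂ) (f := fun i => Dlt i r)
    (g := fun n => gG ((n : ℚ) ^ 2 * r))).mpr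
  apply h
  intro n hn
  unfold Dlt
  rw [Nat.sum_divisorsAntidiagonal' (f := fun a b => ((ArithmeticFunction.moebius a : ℤ) : ℂ) *
    gG ((b : ℚ) ^ 2 * r))]

private lemma NCWtB_cast (ρ : ℕ → ℝ) (v : ℕ) :
    Arho (fun p => ((ρ p : ℝ) : ℂ)) v = ((Arho ρ v : ℝ) : ℂ) := by
  unfold Arho Finsupp.prod
  push_cast
  rfl

theorem gauss_sum_w (x : ℕ → ℝ) (N : ℕ) (hN : N ≠ 0) (r : ℚ)
    (hr : ∀ v : ℕ, v ∣ r.den → ¬ v ∣ N → Arho x v = 0) :
    ∑ d ∈ N.divisors, ((ww x N d : ℝ) : ℂ) * gG ((d : ℚ) ^ 2 * r) =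
      ∑ v ∈ r.den.divisors, Arho (fun p => ((x p : ℝ) : ℂ)) v * Dlt v r := by
  have h1 : ∀ d ∈ N.divisors, ((ww x N d : ℝ) : ℂ) * gG ((d : ℚ) ^ 2 * r) =
      ∑ v ∈ N.divisors, if v ∣ d then ((ww x N d : ℝ) : ℂ) * Dlt v r else 0 := by
    intro d hd
    have hd1 := Nat.dvd_of_mem_divisors hd
    have hd0 : 0 < d := Nat.pos_of_mem_divisors hd
    rw [← NCWtB_inv r d hd0, Finset.mul_sum, ← Finset.sum_filter]
    apply Finset.sum_congr _ (fun _ _ => rfl)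
    ext v
    simp only [Nat.mem_divisors, Finset.mem_filter]
    constructor
    · rintro ⟨h2, h3⟩
      exact ⟨⟨h2.trans hd1, hN⟩, h2⟩
    · rintro ⟨_, h3⟩
      exact ⟨h3, hd0.ne'⟩
  rw [Finset.sum_congr rfl h1, Finset.sum_comm]
  have h2 : ∀ v ∈ N.divisors, (∑ d ∈ N.divisors, if v ∣ d then ((ww x N d : ℝ) : ℂ) * Dlt v r else 0) =
      ((Arho x v : ℝ) : ℂ) * Dlt v r := by
    intro v hv
    rw [← Finset.sum_filter, ← Finset.sum_mul, ← sum_ww x N v hN (Nat.dvd_of_mem_divisors hv)]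
    push_cast
    rfl
  rw [Finset.sum_congr rfl h2]
  have h3 : ∑ v ∈ N.divisors, ((Arho x v : ℝ) : ℂ) * Dlt v r =
      ∑ v ∈ N.divisors ∪ r.den.divisors, ((Arho x v : ℝ) : ℂ) * Dlt v r := by
    apply Finset.sum_subset Finset.subset_union_left
    intro v hv hv'
    have h4 : v ∈ r.den.divisors := by
      rcases Finset.mem_union.mp hv with h | h
      · exact absurd h hv'
      · exact h
    have h5 : ¬ v ∣ N := fun h => hv' (Nat.mem_divisors.mpr ⟨h, hN⟩)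
    rw [hr v (Nat.dvd_of_mem_divisors h4) h5]
    simp
  have h4 : ∑ v ∈ r.den.divisors, ((Arho x v : ℝ) : ℂ) * Dlt v r =
      ∑ v ∈ N.divisors ∪ r.den.divisors, ((Arho x v : ℝ) : ℂ) * Dlt v r := by
    apply Finset.sum_subset Finset.subset_union_right
    intro v hv hv'
    have h4 : v ∈ N.divisors := by
      rcases Finset.mem_union.mp hv with h | h
      · exact h
      · exact absurd h hv'
    have h5 : ¬ v ∣ r.den := fun h => hv' (Nat.mem_divisors.mpr ⟨h, r.den_ne_zero⟩)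
    rw [Dlt_eq_zero v (Nat.pos_of_mem_divisors h4).ne' r h5]
    simp
  rw [h3, ← h4]
  apply Finset.sum_congr rfl
  intro v _
  rw [NCWtB_cast]

/-- the number `N` -/
noncomputable def NN (P : ℝ) (E : ℕ) : ℕ := ∏ p ∈ (Ioc 0 ⌊P⌋₊).filter Nat.Prime, p ^ E

lemma NN_ne_zero (P : ℝ) (E : ℕ) : NN P E ≠ 0 := by
  unfold NN
  apply Finset.prod_ne_zero_iff.mpr
  intro p hp
  exact pow_ne_zero _ (Finset.mem_filter.mp hp).2.ne_zero

lemma NN_primes (P : ℝ) (E : ℕ) (p : ℕ) (hp : p ∈ (NN P E).primeFactors) : p.Prime ∧ (p : ℝ) ≤ P := by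
  have hp1 := Nat.prime_of_mem_primeFactors hp
  have hp2 := Nat.dvd_of_mem_primeFactors hp
  refine ⟨hp1, ?_⟩
  unfold NN at hp2
  obtain ⟨q, hq, hpq⟩ := (Prime.dvd_finsetProd_iff hp1.prime _).mp hp2
  rw [Finset.mem_filter, Finset.mem_Ioc] at hq
  have h1 := hp1.dvd_of_dvd_pow hpq
  have h2 := (Nat.prime_dvd_prime_iff_eq hp1 hq.2).mp h1
  subst h2
  by_contra hcon
  have h3 : P < p := not_le.mp hcon
  have h4 : 0 < ⌊P⌋₊ := lt_of_lt_of_le hq.1.1 hq.1.2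
  have h5 : 0 ≤ P := by
    by_contra h6
    rw [Nat.floor_of_nonpos (not_le.mp h6).le] at h4
    exact lt_irrefl _ h4
  have h6 := (Nat.floor_lt h5).mpr h3
  exact absurd hq.1.2 (not_le.mpr h6)

lemma NN_dvd (P : ℝ) (hP : 0 ≤ P) (E : ℕ) (x : ℕ → ℝ) (hx : ∀ p : ℕ, p.Prime → P < p → x p = 0) (r : ℚ)
    (hr : (r.den : ℝ) < 2 ^ E) : ∀ v : ℕ, v ∣ r.den → ¬ v ∣ NN P E → Arho x v = 0 := by
  intro v hv hvN
  by_contra hA
  apply hvN
  have hv0 : v ≠ 0 := fun h => r.den_ne_zero (Nat.eq_zero_of_zero_dvd (h ▸ hv))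
  rw [← Nat.factorization_le_iff_dvd hv0 (NN_ne_zero P E)]
  intro p
  by_cases hpv : p ∈ v.factorization.support
  · have hp : p.Prime := Nat.prime_of_mem_primeFactors (by rwa [Nat.support_factorization] at hpv)
    have hpd : p ∣ v := Nat.dvd_of_mem_primeFactors (by rwa [Nat.support_factorization] at hpv)
    have hf0 : v.factorization p ≠ 0 := Finsupp.mem_support_iff.mp hpv
    have hxp : x p ≠ 0 := by
      intro h0
      apply hA
      unfold Arho Finsupp.prod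
      apply Finset.prod_eq_zero hpv
      beta_reduce
      rw [h0, zero_pow hf0]
    have hpP : (p : ℝ) ≤ P := by
      by_contra h1
      exact hxp (hx p hp (not_le.mp h1))
    have hmem : p ∈ (Ioc 0 ⌊P⌋₊).filter Nat.Prime := by
      rw [Finset.mem_filter, Finset.mem_Ioc]
      exact ⟨⟨hp.pos, Nat.le_floor hpP⟩, hp⟩
    have h2 : p ^ E ∣ NN P E := Finset.dvd_prod_of_mem (fun p => p ^ E) hmem
    have h3 : E ≤ (NN P E).factorization p :=
      (hp.pow_dvd_iff_le_factorization (NN_ne_zero P E)).mp h2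
    refine le_trans ?_ h3
    have h4 : p ^ (v.factorization p) ∣ r.den := (Nat.ordProj_dvd v p).trans hv
    have h5 : 2 ^ (v.factorization p) ≤ r.den :=
      (Nat.pow_le_pow_left hp.two_le _).trans (Nat.le_of_dvd (Nat.pos_of_ne_zero r.den_ne_zero) h4)
    have h6 : r.den < 2 ^ E := by exact_mod_cast hr
    exact ((Nat.pow_lt_pow_iff_right (by norm_num)).mp (lt_of_le_of_lt h5 h6)).le
  · rw [Finsupp.notMem_support_iff.mp hpv]
    exact Nat.zero_le _

end Pool.Agent.H.MP_b3c6db_nt
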