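import Pool.Agent.H.MP_b3c6db_nt.NC.PosB
import Pool.Agent.H.MP_b3c6db_nt.NC.WtB
import Pool.Agent.H.MP_b3c6db_nt.NC.LocC
import Pool.Agent.H.MP_b3c6db_nt.NC.Tail
import Pool.Agent.H.MP_b3c6db_nt.NC.Err

/-! The upper bound.

PROOF of `upper_one` (`J` large, `log H ≥ 10 J`): `P = (J/192000000)²`, so `√P = J/192000000`, `D = e^(J/8000) = exp (24000 √P)`,
`N = NN P (4 J)`, `VS = Icc 1 ⌊D⌋₊`, `w d = 2 ww (xx P) N d` if `d ∣ N`, `0` otherwise (for `d ∈ VS`; `0` outside is harmless).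
`∑_{d ∈ VS} w d = 2 (1 - tail)` with `∑_{d ∣ N} ww = 1` (`sum_ww` with `v = 1`), `tail ≤ 1/√P ≤ 1/2` (`tail_small`). `deltaPos_sharp` with
`σ = 1/400`, `B = e^(3J/2)`, `X = e^(5J)`: `B² D e^J = e^((4+1/8000)J) ≤ X`; `Lm = lcm d₁ d₂ ≤ D²` (or `Lm = d₁ d₂`) gives
`2 B³ D⁴ = 2 e^((4.5+1/2000)J) < e^(10J)`; `card VS ≤ D`; `hsm` from `err_small`. `hloc`: for `den r ≤ B D² ≤ e^(1.6 J) < 2^(4J)`,
`∑_{d ∈ VS} w d gG (d² r) = 2 ∑_{d ∣ N} ww gG - 2 ∑_{d ∣ N, d > D} ww gG`, the first is the sum in `loc_main`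
(`gauss_sum_w`, `NN_dvd`, `xx_large`), the second is `≤ 1/√P` in absolute value (`norm_gG_le_one`, `tail_small`); with `KK_good`:
`Re ≥ -2 (401 · 4/√P) - 2 · 401/√P =: -Lb`. So `deltaPos H ≤ 2 (1/J + Lb + 1/J) ≤ C/J`.
PROOF of `deltaPos_upper`: for large `H`, `J = ⌊log H/10⌋`, `J ≥ log H/20`; for the other `H` use `deltaPos_le_one`. -/

set_option autoImplicit false

namespace Pool.Agent.H.MP_b3c6db_nt

open Finset Filter

private lemma NCUpper_filter (N : ℕ) (hN : N ≠ 0) (D : ℝ) (hD : 0 ≤ D) :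
    N.divisors.filter (fun d : ℕ => ¬ D < (d : ℝ)) = (Icc 1 ⌊D⌋₊).filter (fun d => d ∣ N) := by
  ext d
  rw [mem_filter, mem_filter, Nat.mem_divisors, mem_Icc, not_lt]
  constructor
  · rintro ⟨⟨h3, h4⟩, h5⟩
    exact ⟨⟨Nat.pos_of_dvd_of_pos h3 (Nat.pos_of_ne_zero hN), Nat.le_floor h5⟩, h3⟩
  · rintro ⟨⟨h3, h4⟩, h5⟩
    exact ⟨⟨h5, hN⟩, (Nat.le_floor_iff hD).1 h4⟩

private lemma NCUpper_sumC (x : ℕ → ℝ) (N : ℕ) (hN : N ≠ 0) (D : ℝ) (hD : 0 ≤ D) (g : ℕ → ℂ) :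
    ∑ d ∈ Icc 1 ⌊D⌋₊, (((if d ∣ N then 2 * ww x N d else 0 : ℝ)) : ℂ) * g d =
      2 * (∑ d ∈ N.divisors, ((ww x N d : ℝ) : ℂ) * g d -
        ∑ d ∈ N.divisors.filter (fun d : ℕ => D < (d : ℝ)), ((ww x N d : ℝ) : ℂ) * g d) := by
  classical
  have h1 := sum_filter_add_sum_filter_not N.divisors (fun d : ℕ => D < (d : ℝ))
    (fun d => ((ww x N d : ℝ) : ℂ) * g d)
  rw [← h1, NCUpper_filter N hN D hD, add_sub_cancel_left, mul_sum, sum_filter]
  refine sum_congr rfl fun d _ => ?_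
  split_ifs
  · push_cast
    ring
  · simp

private lemma NCUpper_sum (x : ℕ → ℝ) (N : ℕ) (hN : N ≠ 0) (D : ℝ) (hD : 0 ≤ D) :
    ∑ d ∈ Icc 1 ⌊D⌋₊, (if d ∣ N then 2 * ww x N d else 0 : ℝ) =
      2 * (∑ d ∈ N.divisors, ww x N d -
        ∑ d ∈ N.divisors.filter (fun d : ℕ => D < (d : ℝ)), ww x N d) := by
  classical
  have h1 := sum_filter_add_sum_filter_not N.divisors (fun d : ℕ => D < (d : ℝ))
    (fun d => ww x N d)
  rw [← h1, NCUpper_filter N hN D hD, add_sub_cancel_left, mul_sum, sum_filter]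

theorem upper_one : ∃ C : ℝ, ∀ᶠ J : ℕ in atTop, ∀ H : ℕ, Real.exp (10 * J) ≤ H →
    deltaPos H ≤ C / J := by
  refine ⟨4 + 8020 * 192000000, ?_⟩
  have hPt : Tendsto (fun J : ℕ => ((J : ℝ) / 192000000) ^ 2) atTop atTop := by
    have h := (tendsto_natCast_atTop_atTop (R := ℝ)).atTop_div_const
      (by norm_num : (0 : ℝ) < 192000000)
    exact (tendsto_pow_atTop two_ne_zero).comp h
  filter_upwards [hPt.eventually xx_small, hPt.eventually ee_sum, hPt.eventually xx_nonneg,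
    hPt.eventually xx_mid, hPt.eventually xx_large, hPt.eventually tail_small,
    hPt.eventually (eventually_ge_atTop 100), err_small, eventually_ge_atTop 1608]
    with J a1 a2 a3 a4 a5 a6 a7 a8 a9 H hH
  set P : ℝ := ((J : ℝ) / 192000000) ^ 2 with hP
  have hJ : (1608 : ℝ) ≤ J := by exact_mod_cast a9
  have hJ0 : (0 : ℝ) < J := by linarith
  have hsP : Real.sqrt P = J / 192000000 := by rw [hP, Real.sqrt_sq (by positivity)]
  have hP0 : (0 : ℝ) ≤ P := by linarith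
  have hsP0 : 0 < Real.sqrt P := by rw [hsP]; positivity
  have hsP10 : 10 ≤ Real.sqrt P := by
    refine Real.le_sqrt_of_sq_le ?_
    linarith
  obtain ⟨D, hDdef⟩ : ∃ D : ℝ, D = Real.exp (J / 8000) := ⟨_, rfl⟩
  obtain ⟨B, hBdef⟩ : ∃ B : ℝ, B = Real.exp (3 / 2 * J) := ⟨_, rfl⟩
  obtain ⟨X, hXdef⟩ : ∃ X : ℝ, X = Real.exp (5 * J) := ⟨_, rfl⟩
  have hD0 : 0 < D := by rw [hDdef]; exact Real.exp_pos _
  have hX0 : 0 < X := by rw [hXdef]; exact Real.exp_pos _
  have hD1 : 1 ≤ D := by rw [hDdef]; exact Real.one_le_exp (by positivity)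
  have hB1 : 1 ≤ B := by rw [hBdef]; exact Real.one_le_exp (by positivity)
  obtain ⟨N, hNdef⟩ : ∃ N : ℕ, N = NN P (4 * J) := ⟨_, rfl⟩
  have hN : N ≠ 0 := by rw [hNdef]; exact NN_ne_zero _ _
  have hNp : ∀ p ∈ N.primeFactors, p.Prime ∧ (p : ℝ) ≤ P := by
    intro p hp
    rw [hNdef] at hp
    exact NN_primes _ _ p hp
  have hx1 : ∀ p ∈ N.primeFactors, xx P p ≤ 1 := by
    intro p hp
    obtain ⟨h1, h2⟩ := hNp p hp
    rcases le_or_gt (p : ℝ) (YY P) with h3 | h3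
    · exact (a1 p h1 h3).2.1
    · have := (a4 p h1 h3 h2).2.1
      linarith
  have hwn : ∀ d, d ∣ N → 0 ≤ ww (xx P) N d := fun d hd => ww_nonneg (xx P) a3 N hx1 d hd hN
  have htail : ∑ d ∈ N.divisors.filter (fun d : ℕ => D < (d : ℝ)), ww (xx P) N d ≤
      1 / Real.sqrt P := by
    refine a6 N D hN (fun p hp => (hNp p hp).2) ?_
    rw [hsP, hDdef]
    refine Real.exp_le_exp.2 (le_of_eq ?_)
    ring
  have htail0 : 0 ≤ ∑ d ∈ N.divisors.filter (fun d : ℕ => D < (d : ℝ)), ww (xx P) N d :=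
    sum_nonneg fun d hd => hwn d (Nat.mem_divisors.1 (mem_filter.1 hd).1).1
  have htail10 : 1 / Real.sqrt P ≤ 1 / 10 := one_div_le_one_div_of_le (by norm_num) hsP10
  have htot : ∑ d ∈ N.divisors, ww (xx P) N d = 1 := by
    have h1 := sum_ww (xx P) N 1 hN (one_dvd N)
    rw [Arho_one] at h1
    rw [← h1]
    refine sum_congr ?_ fun d _ => rfl
    ext d
    simp
  have hwsum := NCUpper_sum (xx P) N hN D hD0.le
  rw [htot] at hwsum
  have hmem : ∀ d : ℕ, d ∈ Icc 1 ⌊D⌋₊ ↔ 1 ≤ d ∧ (d : ℝ) ≤ D := by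
    intro d
    rw [mem_Icc, Nat.le_floor_iff hD0.le]
  have hcard : ((Icc 1 ⌊D⌋₊).card : ℝ) ≤ Real.exp (J / 8000) := by
    rw [Nat.card_Icc, Nat.add_sub_cancel, ← hDdef]
    exact Nat.floor_le hD0.le
  obtain ⟨b1, b2⟩ := a8 H hH ((Icc 1 ⌊D⌋₊).card : ℝ) (Nat.cast_nonneg _) hcard
  rw [← hDdef, ← hBdef, ← hXdef] at b1
  rw [← hDdef, ← hXdef] at b2
  have hJinv : 1 / (J : ℝ) ≤ 1 / 2 := one_div_le_one_div_of_le (by norm_num) (by linarith)
  have hmain := deltaPos_sharp (Icc 1 ⌊D⌋₊)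
    (by
      intro v hv d hd
      rw [mem_Icc] at hv ⊢
      have h1 := Nat.pos_of_dvd_of_pos hd (by omega)
      have h2 := Nat.le_of_dvd (by omega) hd
      omega)
    (by
      intro v hv
      rw [mem_Icc] at hv
      omega)
    (by
      rw [hmem]
      exact ⟨le_rfl, by rw [Nat.cast_one]; exact hD1⟩)
    (fun d => if d ∣ N then 2 * ww (xx P) N d else 0)
    (by
      intro d
      beta_reduce
      split_ifs with h
      · have := hwn d h
        linarith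
      · exact le_rfl)
    (by
      rw [hwsum]
      linarith)
    (by
      rw [hwsum]
      linarith)
    (1 / 400) (by norm_num) J (by omega) X B D (4010 / Real.sqrt P) hX0 hB1
    (fun d hd => ((hmem d).1 hd).2) hD1
    (by
      rw [hBdef, hDdef, hXdef, ← Real.exp_nat_mul, ← Real.exp_add, ← Real.exp_add]
      refine Real.exp_le_exp.2 ?_
      push_cast
      nlinarith)
    (by
      intro d₁ hd₁ d₂ hd₂
      obtain ⟨c1, c2⟩ := (hmem d₁).1 hd₁
      obtain ⟨c3, c4⟩ := (hmem d₂).1 hd₂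
      refine ⟨d₁ * d₂, ?_, Dvd.intro _ rfl, Dvd.intro_left _ rfl, ?_⟩
      · exact Nat.mul_ne_zero (by omega) (by omega)
      · have c5 : ((d₁ * d₂ : ℕ) : ℝ) ^ 2 ≤ (D * D) ^ 2 := by
          refine pow_le_pow_left₀ (Nat.cast_nonneg _) ?_ 2
          rw [Nat.cast_mul]
          exact mul_le_mul c2 c4 (Nat.cast_nonneg _) hD0.le
        have c6 : (2 : ℝ) ≤ Real.exp J := by
          have := Real.add_one_le_exp (J : ℝ)
          linarith
        calc 2 * B ^ 3 * ((d₁ * d₂ : ℕ) : ℝ) ^ 2 ≤ Real.exp J * B ^ 3 * (D * D) ^ 2 := by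
              gcongr
          _ < X ^ 2 := by
              rw [hBdef, hDdef, hXdef, ← Real.exp_nat_mul, ← Real.exp_add, ← Real.exp_add,
                ← Real.exp_nat_mul, ← Real.exp_add, ← Real.exp_nat_mul]
              refine Real.exp_lt_exp.2 ?_
              push_cast
              nlinarith)
    (by positivity)
    (by
      intro r hr u hu
      obtain ⟨k1, k2, k3⟩ := KK_good J a9 u (by rw [← hBdef]; exact hu)
      have hden : (r.den : ℝ) < 2 ^ (4 * J) := by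
        refine lt_of_le_of_lt hr ?_
        have c1 : (2 : ℝ) ^ (4 * J) = Real.exp (((4 * J : ℕ) : ℝ) * Real.log 2) := by
          rw [← Real.log_pow, Real.exp_log (by positivity)]
        rw [c1, hBdef, hDdef, ← Real.exp_nat_mul, ← Real.exp_add]
        refine Real.exp_lt_exp.2 ?_
        have c2 := Real.log_two_gt_d9
        push_cast
        nlinarith
      have hg := gauss_sum_w (xx P) N hN r (by
        rw [hNdef]
        exact NN_dvd P hP0 (4 * J) (xx P) a5 r hden)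
      have hl := loc_main (xx P) (ee P) (YY P) P a7
        (fun p hp h => by
          obtain ⟨c1, c2, c3, c4, c5⟩ := a1 p hp h
          exact ⟨by linarith, c2, c3, c4, c5⟩)
        a2
        (fun p hp h h' => by
          obtain ⟨c1, c2, c3, c4, c5⟩ := a4 p hp h h'
          exact ⟨c1, by linarith, c3, c4, c5⟩)
        a5 (KK (1 / 400) J u) 401 k1 k2 k3 r
      rw [← hg] at hl
      rw [NCUpper_sumC (xx P) N hN D hD0.le (fun d => gG ((d : ℚ) ^ 2 * r))]
      have ht : ‖∑ d ∈ N.divisors.filter (fun d : ℕ => D < (d : ℝ)),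
          ((ww (xx P) N d : ℝ) : ℂ) * gG ((d : ℚ) ^ 2 * r)‖ ≤ 1 / Real.sqrt P := by
        refine (norm_sum_le _ _).trans (le_trans (sum_le_sum fun d hd => ?_) htail)
        have c1 := hwn d (Nat.mem_divisors.1 (mem_filter.1 hd).1).1
        rw [norm_mul, Complex.norm_real, Real.norm_of_nonneg c1]
        exact mul_le_of_le_one_right c1 (norm_gG_le_one _)
      set S1 := ∑ d ∈ N.divisors, ((ww (xx P) N d : ℝ) : ℂ) * gG ((d : ℚ) ^ 2 * r) with hS1
      set S2 := ∑ d ∈ N.divisors.filter (fun d : ℕ => D < (d : ℝ)),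
          ((ww (xx P) N d : ℝ) : ℂ) * gG ((d : ℚ) ^ 2 * r) with hS2
      have e1 : KK (1 / 400) J u * (2 * (S1 - S2)) =
          ((2 : ℝ) : ℂ) * (KK (1 / 400) J u * S1) - ((2 : ℝ) : ℂ) * (KK (1 / 400) J u * S2) := by
        push_cast
        ring
      rw [e1, Complex.sub_re, Complex.re_ofReal_mul, Complex.re_ofReal_mul]
      have e2 : (KK (1 / 400) J u * S2).re ≤ 401 * (1 / Real.sqrt P) := by
        refine (Complex.re_le_norm _).trans ?_
        rw [norm_mul]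
        exact mul_le_mul k3 ht (norm_nonneg _) (by norm_num)
      have e3 : 4010 / Real.sqrt P = 2 * (401 * (4 / Real.sqrt P)) +
          2 * (401 * (1 / Real.sqrt P)) := by ring
      linarith)
    H
    (by
      exact b1.trans hJinv)
  refine hmain.trans ?_
  have hfin : 2 * (1 / (J : ℝ) + (4010 / Real.sqrt P + 1 / J)) =
      (4 + 8020 * 192000000) / J := by
    rw [hsP]
    field_simp
    ring
  rw [← hfin]
  linarith

theorem deltaPos_upper : ∃ C : ℝ, ∀ H : ℕ, 2 ≤ H → deltaPos H ≤ C / Real.log H := by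
  obtain ⟨C, hC⟩ := upper_one
  rw [eventually_atTop] at hC
  obtain ⟨J₀, hJ₀⟩ := hC
  obtain ⟨J₁, hJ₁⟩ : ∃ J₁ : ℕ, J₁ = J₀ + 1 := ⟨_, rfl⟩
  refine ⟨20 * |C| + 10 * (J₁ + 1), fun H hH => ?_⟩
  have hH2 : (2 : ℝ) ≤ H := by exact_mod_cast hH
  have hl : 0 < Real.log H := Real.log_pos (by linarith)
  rw [le_div_iff₀ hl]
  have hJ1 : (1 : ℝ) ≤ J₁ := by
    rw [hJ₁]
    push_cast
    linarith [(Nat.cast_nonneg J₀ : (0 : ℝ) ≤ J₀)]
  rcases le_or_gt (Real.log H) (10 * (J₁ + 1)) with h | h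
  · have h1 := deltaPos_le_one H
    have h2 : deltaPos H * Real.log H ≤ 1 * Real.log H := mul_le_mul_of_nonneg_right h1 hl.le
    have h3 := abs_nonneg C
    linarith
  · obtain ⟨J, hJ⟩ : ∃ J : ℕ, J = ⌊Real.log H / 10⌋₊ := ⟨_, rfl⟩
    have h1 : (J : ℝ) ≤ Real.log H / 10 := by
      rw [hJ]
      exact Nat.floor_le (by positivity)
    have h2 : Real.log H / 10 < J + 1 := by
      rw [hJ]
      exact Nat.lt_floor_add_one _
    have h3 : (J₁ : ℝ) < J := by linarith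
    have h4 : J₀ ≤ J := by
      have : J₁ < J := by exact_mod_cast h3
      omega
    have hJpos : (0 : ℝ) < J := by linarith
    have h5 := hJ₀ J h4 H (by
      calc Real.exp (10 * J) ≤ Real.exp (Real.log H) := Real.exp_le_exp.2 (by linarith)
        _ = H := Real.exp_log (by linarith))
    have h6 : Real.log H ≤ 20 * J := by linarith
    have h7 : deltaPos H ≤ |C| / J := h5.trans (div_le_div_of_nonneg_right (le_abs_self C) hJpos.le)
    have h8 : deltaPos H * Real.log H ≤ |C| / J * Real.log H := mul_le_mul_of_nonneg_right h7 hl.le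
    have h9 : |C| / J * Real.log H ≤ |C| / J * (20 * J) :=
      mul_le_mul_of_nonneg_left h6 (by positivity)
    have h10 : |C| / J * (20 * J) = 20 * |C| := by
      field_simp
    linarith

end Pool.Agent.H.MP_b3c6db_nt
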