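import Pool.Agent.H.MP_b3c6db_nt.NC.LowB
import Pool.Agent.H.MP_b3c6db_nt.NC.Upper

/-! The order of magnitude for non-negative coefficients. -/

set_option autoImplicit false

namespace Pool.Agent.H.MP_b3c6db_nt

theorem nc_main : ∃ c C : ℝ, 0 < c ∧ ∀ H : ℕ, 2 ≤ H →
    c / Real.log H ≤ deltaPos H ∧ deltaPos H ≤ C / Real.log H := by
  obtain ⟨c, hc, h1⟩ := deltaPos_lower
  obtain ⟨C, h2⟩ := deltaPos_upper
  exact ⟨c, C, hc, fun H hH => ⟨h1 H hH, h2 H hH⟩⟩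

end Pool.Agent.H.MP_b3c6db_nt
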