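import Pool.Agent.H.MP_b3c6db_nt.NC.Defs
import Pool.Agent.H.MP_b3c6db_nt.Trunc

/-! Cosine polynomials with non-negative coefficients: closure properties.

PROOF. Copy the lemmas `IsCP.add`, `IsCP.smul`, `IsCP.const`, `IsCP.sum`, `IsCP.cos`, `IsCP.congr`,
`IsCP.ThN_scaled`, `delta_le_of_IsCP` of Trunc.lean (import it, read it there) and carry the sign of the
coefficients along; all scalars are non-negative. For the last theorem the coefficients with `k ≥ 1` of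
`(f + ε)/(f 0 + ε)` are those of `f` divided by `f 0 + ε > 0`. `deltaPos` is an infimum of a set that is bounded
below (by `0`: `delta_bddBelow` / `int_cosPoly`, Coeff.lean). -/

namespace Pool.Agent.H.MP_b3c6db_nt

open Finset

/-- `f` is a cosine polynomial with square frequencies, constant term `a` and non-negative other
coefficients. -/
def IsCPp (H : ℕ) (a : ℝ) (f : ℝ → ℝ) : Prop :=
  ∃ c : ℕ → ℝ, c 0 = a ∧ (∀ k : ℕ, 1 ≤ k → 0 ≤ c k) ∧ ∀ x, cosPoly H c x = f x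

lemma IsCPp.add {H : ℕ} {a b : ℝ} {f g : ℝ → ℝ} (hf : IsCPp H a f) (hg : IsCPp H b g) :
    IsCPp H (a + b) (fun x => f x + g x) := by
  obtain ⟨c, hc0, hcp, hc⟩ := hf
  obtain ⟨c', hc0', hcp', hc'⟩ := hg
  refine ⟨fun k => c k + c' k, by beta_reduce; rw [hc0, hc0'],
    fun k hk => add_nonneg (hcp k hk) (hcp' k hk), ?_⟩
  intro x
  beta_reduce
  rw [← hc x, ← hc' x]
  unfold cosPoly
  have h1 : ∑ k ∈ Icc 1 H, (c k + c' k) * Real.cos (2 * Real.pi * (k : ℝ) ^ 2 * x) =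
      ∑ k ∈ Icc 1 H, c k * Real.cos (2 * Real.pi * (k : ℝ) ^ 2 * x) +
      ∑ k ∈ Icc 1 H, c' k * Real.cos (2 * Real.pi * (k : ℝ) ^ 2 * x) := by
    rw [← sum_add_distrib]
    apply sum_congr rfl
    intro k _
    ring
  rw [h1]
  ring

lemma IsCPp.smul {H : ℕ} {a : ℝ} {f : ℝ → ℝ} (t : ℝ) (ht : 0 ≤ t) (hf : IsCPp H a f) :
    IsCPp H (t * a) (fun x => t * f x) := by
  obtain ⟨c, hc0, hcp, hc⟩ := hf
  refine ⟨fun k => t * c k, by beta_reduce; rw [hc0], fun k hk => mul_nonneg ht (hcp k hk), ?_⟩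
  intro x
  beta_reduce
  rw [← hc x]
  unfold cosPoly
  rw [mul_add, mul_sum]
  congr 1
  apply sum_congr rfl
  intro k _
  ring

lemma IsCPp.const (H : ℕ) (a : ℝ) : IsCPp H a (fun _ => a) := by
  refine ⟨fun k => if k = 0 then a else 0, by simp, fun k hk => ?_, ?_⟩
  · beta_reduce
    rw [if_neg (by omega)]
  intro x
  unfold cosPoly
  simp only [if_true]
  rw [Finset.sum_eq_zero]
  · simp
  · intro k hk
    rw [mem_Icc] at hk
    rw [if_neg (by omega)]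
    simp

lemma IsCPp.sum {H : ℕ} {ι : Type*} (s : Finset ι) (a : ι → ℝ) (f : ι → ℝ → ℝ)
    (h : ∀ i ∈ s, IsCPp H (a i) (f i)) : IsCPp H (∑ i ∈ s, a i) (fun x => ∑ i ∈ s, f i x) := by
  classical
  induction s using Finset.induction_on with
  | empty => simpa using IsCPp.const H 0
  | insert i s hi ih =>
    have h1 := (h i (mem_insert_self _ _)).add (ih (fun j hj => h j (mem_insert_of_mem hj)))
    rw [Finset.sum_insert hi]
    have h2 : (fun x => ∑ j ∈ insert i s, f j x) = fun x => f i x + ∑ j ∈ s, f j x := by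
      funext x
      rw [Finset.sum_insert hi]
    rw [h2]
    exact h1

private lemma NCPosA_cos (H m : ℕ) (h1 : 1 ≤ m) (h2 : m ≤ H) :
    IsCPp H 0 (fun x => Real.cos (2 * Real.pi * (m : ℝ) ^ 2 * x)) := by
  refine ⟨fun k => if k = m then 1 else 0, by simp; omega, fun k _ => ?_, ?_⟩
  · beta_reduce
    split_ifs
    · exact zero_le_one
    · exact le_rfl
  intro x
  unfold cosPoly
  beta_reduce
  rw [if_neg (by omega), Finset.sum_eq_single m]
  · simp
  · intro k _ hk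
    rw [if_neg hk, zero_mul]
  · intro hm
    exact absurd (mem_Icc.mpr ⟨h1, h2⟩) hm

lemma IsCPp.congr {H : ℕ} {a b : ℝ} {f g : ℝ → ℝ} (hf : IsCPp H a f) (hab : a = b)
    (hfg : ∀ x, f x = g x) : IsCPp H b g := by
  obtain ⟨c, hc0, hcp, hc⟩ := hf
  exact ⟨c, by rw [hc0, hab], hcp, fun x => by rw [hc, hfg]⟩

lemma IsCPp.ThN_scaled (H d : ℕ) (hd : 1 ≤ d) (M : ℝ) :
    IsCPp H 1 (fun x => ThN M (H / d) ((d : ℝ) ^ 2 * x)) := by
  have h1 : IsCPp H (∑ k ∈ Icc 1 (H / d), (2 * Real.exp (-(Real.pi * (k : ℝ) ^ 2 / M ^ 2))) * 0)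
      (fun x => ∑ k ∈ Icc 1 (H / d), (2 * Real.exp (-(Real.pi * (k : ℝ) ^ 2 / M ^ 2))) *
        Real.cos (2 * Real.pi * ((k * d : ℕ) : ℝ) ^ 2 * x)) := by
    apply IsCPp.sum
    intro k hk
    rw [mem_Icc] at hk
    apply IsCPp.smul _ (by positivity)
    apply NCPosA_cos
    · exact Nat.mul_pos hk.1 hd
    · calc k * d ≤ (H / d) * d := Nat.mul_le_mul_right d hk.2
        _ ≤ H := Nat.div_mul_le_self H d
  refine ((IsCPp.const H 1).add h1).congr (by simp) ?_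
  intro x
  unfold ThN
  congr 1
  apply sum_congr rfl
  intro k _
  congr 2
  push_cast
  ring

private lemma NCPosA_bdd (H : ℕ) : BddBelow {a : ℝ | ∃ c : ℕ → ℝ, Admissible H c ∧
    (∀ k : ℕ, 1 ≤ k → k ≤ H → 0 ≤ c k) ∧ c 0 = a} := by
  refine (delta_bddBelow H).mono ?_
  rintro a ⟨c, h1, -, h2⟩
  exact ⟨c, h1, h2⟩

theorem deltaPos_le_of_IsCPp (H : ℕ) (a ε : ℝ) (f : ℝ → ℝ) (hf : IsCPp H a f) (hε : 0 ≤ ε)
    (hpos : ∀ x, -ε ≤ f x) (h0 : 1 / 2 ≤ f 0) : deltaPos H ≤ 2 * (|a| + ε) := by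
  have hs : 0 < f 0 + ε := by linarith
  have h1 := ((hf.add (IsCPp.const H ε)).smul (1 / (f 0 + ε)) (by positivity))
  obtain ⟨c, hc0, hcp, hc⟩ := h1
  have h2 : Admissible H c := by
    refine ⟨?_, ?_⟩
    · intro x
      rw [hc x]
      apply mul_nonneg (by positivity)
      linarith [hpos x]
    · rw [hc 0]
      field_simp
  have h3 : deltaPos H ≤ c 0 := by
    unfold deltaPos
    apply csInf_le (NCPosA_bdd H)
    exact ⟨c, h2, fun k hk _ => hcp k hk, rfl⟩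
  refine h3.trans ?_
  rw [hc0]
  have h4 : a + ε ≤ |a| + ε := by linarith [le_abs_self a]
  have h5 : 0 ≤ |a| + ε := by positivity
  have h6 : 1 / (f 0 + ε) ≤ 2 := by
    rw [div_le_iff₀ hs]
    linarith
  calc 1 / (f 0 + ε) * (a + ε) ≤ 1 / (f 0 + ε) * (|a| + ε) :=
        mul_le_mul_of_nonneg_left h4 (by positivity)
    _ ≤ 2 * (|a| + ε) := mul_le_mul_of_nonneg_right h6 h5

/-- `deltaPos H ≤ 1`: the constant polynomial `1`. -/
theorem deltaPos_le_one (H : ℕ) : deltaPos H ≤ 1 := by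
  obtain ⟨c, hc0, hcp, hc⟩ := IsCPp.const H 1
  unfold deltaPos
  apply csInf_le (NCPosA_bdd H)
  refine ⟨c, ⟨fun x => ?_, ?_⟩, fun k hk _ => hcp k hk, hc0⟩
  · rw [hc x]
    exact zero_le_one
  · rw [hc 0]

end Pool.Agent.H.MP_b3c6db_nt
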