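import Pool.Agent.H.MP_b3c6db_nt.NC.PosA
import Pool.Agent.H.MP_b3c6db_nt.SB.Cons

/-! From weights `w(d) ≥ 0` to a polynomial with non-negative coefficients.

PROOF of `hW_inv` (and of its complex form): exchange the sums,
`∑_v ∑_{e ∈ VS, v ∣ e} w(e) ∑_{d ∣ v} μ(v/d) E(d) = ∑_{e ∈ VS} w(e) ∑_{v ∣ e} ∑_{d ∣ v} μ(v/d) E(d)` (the divisors `v` of
`e ∈ VS` are in `VS`), and `∑_{v ∣ e} ∑_{d ∣ v} μ(v/d) E(d) = E(e)` (Moebius inversion, e.g. from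
`ArithmeticFunction.sum_eq_iff_sum_mul_moebius_eq` or `coe_zeta_mul_moebius`).
PROOF of `deltaPos_sharp`: as `delta_sharp` (end of SB/Cons.lean) with `h = hW VS w`, which satisfies
`0 ≤ h ≤ 2`, `h 1 ≥ 1`; `FV VS h E`, `FVN`, `FVc` are of the form of the left side of `hW_inv`. The polynomial
`FVN` is `∑_d w(d) EDN d`, so it is `IsCPp` with constant term `FVc VS h σ J X` (all scalars `w d`,
`exp (-(σ m))`, `d / Xm X m` are `≥ 0`); `hloc` is transformed by the complex form of `hW_inv` into the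
hypothesis of `circle_sharp` (`Dlt v r = ∑_{d ∣ v} μ(v/d) gG (d² r)` by definition). Then `deltaPos_le_of_IsCPp`. -/

namespace Pool.Agent.H.MP_b3c6db_nt

open Finset Complex ArithmeticFunction

/-- the weights `h(v)` that belong to the weights `w(d)`. -/
noncomputable def hW (VS : Finset ℕ) (w : ℕ → ℝ) (v : ℕ) : ℝ :=
  ∑ d ∈ VS.filter (fun d => v ∣ d), w d

private lemma NCPosB_moeb {R : Type*} [CommRing R] (E : ℕ → R) (e : ℕ) (he : 0 < e) :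
    ∑ v ∈ e.divisors, ∑ d ∈ v.divisors, ((moebius (v / d) : ℤ) : R) * E d = E e := by
  refine (sum_eq_iff_sum_mul_moebius_eq (R := R)
    (f := fun v => ∑ d ∈ v.divisors, ((moebius (v / d) : ℤ) : R) * E d) (g := E)).mpr ?_ e he
  intro n _
  exact Nat.sum_divisorsAntidiagonal' (fun a b => ((moebius a : ℤ) : R) * E b)

private lemma NCPosB_swap {R : Type*} [CommRing R] (VS : Finset ℕ)
    (hcl : ∀ v ∈ VS, ∀ d, d ∣ v → d ∈ VS) (hne : ∀ v ∈ VS, v ≠ 0) (w : ℕ → R) (E : ℕ → R) :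
    ∑ v ∈ VS, (∑ d ∈ VS.filter (fun d => v ∣ d), w d) *
        ∑ d ∈ v.divisors, ((moebius (v / d) : ℤ) : R) * E d =
      ∑ d ∈ VS, w d * E d := by
  classical
  have h1 : ∀ v ∈ VS, (∑ d ∈ VS.filter (fun d => v ∣ d), w d) *
        ∑ d ∈ v.divisors, ((moebius (v / d) : ℤ) : R) * E d =
      ∑ e ∈ VS, if v ∣ e then w e * ∑ d ∈ v.divisors, ((moebius (v / d) : ℤ) : R) * E d else 0 := by
    intro v _
    rw [sum_mul, sum_filter]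
  rw [sum_congr rfl h1, sum_comm]
  apply sum_congr rfl
  intro e he
  have h2 : VS.filter (fun v => v ∣ e) = e.divisors := by
    ext v
    rw [mem_filter, Nat.mem_divisors]
    constructor
    · rintro ⟨_, h3⟩
      exact ⟨h3, hne e he⟩
    · rintro ⟨h3, _⟩
      exact ⟨hcl e he v h3, h3⟩
  rw [← sum_filter, h2, ← mul_sum, NCPosB_moeb E e (Nat.pos_of_ne_zero (hne e he))]

lemma hW_inv (VS : Finset ℕ) (hcl : ∀ v ∈ VS, ∀ d, d ∣ v → d ∈ VS) (hne : ∀ v ∈ VS, v ≠ 0)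
    (w : ℕ → ℝ) (E : ℕ → ℝ) :
    ∑ v ∈ VS, hW VS w v * ∑ d ∈ v.divisors, ((moebius (v / d) : ℤ) : ℝ) * E d =
      ∑ d ∈ VS, w d * E d := by
  exact NCPosB_swap VS hcl hne w E

lemma hW_invC (VS : Finset ℕ) (hcl : ∀ v ∈ VS, ∀ d, d ∣ v → d ∈ VS) (hne : ∀ v ∈ VS, v ≠ 0)
    (w : ℕ → ℝ) (E : ℕ → ℂ) :
    ∑ v ∈ VS, ((hW VS w v : ℝ) : ℂ) * ∑ d ∈ v.divisors, ((moebius (v / d) : ℤ) : ℂ) * E d =
      ∑ d ∈ VS, ((w d : ℝ) : ℂ) * E d := by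
  have h1 := NCPosB_swap VS hcl hne (fun d => ((w d : ℝ) : ℂ)) E
  rw [← h1]
  apply sum_congr rfl
  intro v _
  congr 1
  unfold hW
  rw [Complex.ofReal_sum]

private lemma NCPosB_hW_nonneg (VS : Finset ℕ) (w : ℕ → ℝ) (hw : ∀ d, 0 ≤ w d) (v : ℕ) :
    0 ≤ hW VS w v := by
  unfold hW
  exact sum_nonneg (fun d _ => hw d)

private lemma NCPosB_hW_le (VS : Finset ℕ) (w : ℕ → ℝ) (hw : ∀ d, 0 ≤ w d)
    (hw2 : ∑ d ∈ VS, w d ≤ 2) (v : ℕ) : hW VS w v ≤ 2 := by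
  unfold hW
  exact (sum_le_sum_of_subset_of_nonneg (filter_subset _ _) (fun d _ _ => hw d)).trans hw2

private lemma NCPosB_hW_one (VS : Finset ℕ) (w : ℕ → ℝ) : hW VS w 1 = ∑ d ∈ VS, w d := by
  unfold hW
  congr 1
  apply filter_true_of_mem
  intro d _
  exact one_dvd d

private lemma NCPosB_isCPp (VS : Finset ℕ) (hcl : ∀ v ∈ VS, ∀ d, d ∣ v → d ∈ VS)
    (hne : ∀ v ∈ VS, v ≠ 0) (w : ℕ → ℝ) (hw : ∀ d, 0 ≤ w d) (σ : ℝ) (J : ℕ) (X : ℝ) (hX : 0 < X)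
    (H : ℕ) : IsCPp H (FVc VS (hW VS w) σ J X) (FVN VS (hW VS w) σ J X H) := by
  have h1 : IsCPp H (∑ d ∈ VS, w d *
      ∑ m ∈ range J, Real.exp (-(σ * m)) * (((d : ℝ) / Xm X m) * 1))
      (fun x => ∑ d ∈ VS, w d *
        ∑ m ∈ range J, Real.exp (-(σ * m)) *
          (((d : ℝ) / Xm X m) * ThN (Xm X m / d) (H / d) ((d : ℝ) ^ 2 * x))) := by
    apply IsCPp.sum
    intro d hd
    apply IsCPp.smul _ (hw d)
    apply IsCPp.sum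
    intro m _
    apply IsCPp.smul _ (Real.exp_pos _).le
    apply IsCPp.smul _ (div_nonneg (Nat.cast_nonneg d) (CirA_Xm_pos X hX m).le)
    exact IsCPp.ThN_scaled H d (Nat.pos_of_ne_zero (hne d hd)) _
  refine h1.congr ?_ ?_
  · unfold FVc
    rw [hW_inv VS hcl hne w (fun d => ∑ m ∈ range J, Real.exp (-(σ * m)) * (((d : ℝ) / Xm X m) * 1))]
  · intro x
    unfold FVN
    rw [hW_inv VS hcl hne w (fun d => EDN σ J X H d x)]
    rfl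

theorem deltaPos_sharp (VS : Finset ℕ) (hcl : ∀ v ∈ VS, ∀ d, d ∣ v → d ∈ VS)
    (hne : ∀ v ∈ VS, v ≠ 0) (h1 : 1 ∈ VS) (w : ℕ → ℝ) (hw : ∀ d, 0 ≤ w d)
    (hw1 : 1 ≤ ∑ d ∈ VS, w d) (hw2 : ∑ d ∈ VS, w d ≤ 2) (σ : ℝ)
    (hσ : 0 ≤ σ) (J : ℕ) (hJ : 1 ≤ J) (X B D Lb : ℝ) (hX : 0 < X) (hB : 1 ≤ B)
    (hD : ∀ d ∈ VS, (d : ℝ) ≤ D) (hD1 : 1 ≤ D) (hdX : B ^ 2 * D * Real.exp J ≤ X)
    (hsep : ∀ d₁ ∈ VS, ∀ d₂ ∈ VS, ∃ Lm : ℕ, Lm ≠ 0 ∧ d₁ ∣ Lm ∧ d₂ ∣ Lm ∧ 2 * B ^ 3 * (Lm : ℝ) ^ 2 < X ^ 2)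
    (hLb : 0 ≤ Lb)
    (hloc : ∀ r : ℚ, (r.den : ℝ) ≤ B * D ^ 2 → ∀ u : ℝ, |u| ≤ B →
      -Lb ≤ (KK σ J u * ∑ d ∈ VS, ((w d : ℝ) : ℂ) * gG ((d : ℚ) ^ 2 * r)).re) (H : ℕ)
    (hsm : 2 * (VS.card : ℝ) ^ 2 * (errC σ J X B D + errT J X H) ≤ 1 / 2) :
    deltaPos H ≤ 2 * (2 * (VS.card : ℝ) ^ 2 * (J * (D * Real.exp J / X)) +
      (Lb + 2 * (VS.card : ℝ) ^ 2 * (errC σ J X B D + errT J X H))) := by
  have h0 : ∀ v, 0 ≤ hW VS w v := NCPosB_hW_nonneg VS w hw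
  have h2 : ∀ v, hW VS w v ≤ 2 := NCPosB_hW_le VS w hw hw2
  have hh1 : 1 ≤ hW VS w 1 := by
    rw [NCPosB_hW_one]
    exact hw1
  have hloc' : ∀ r : ℚ, (r.den : ℝ) ≤ B * D ^ 2 → ∀ u : ℝ, |u| ≤ B →
      -Lb ≤ (KK σ J u * ∑ v ∈ VS, ((hW VS w v : ℝ) : ℂ) * Dlt v r).re := by
    intro r hr u hu
    have h3 := hloc r hr u hu
    rw [← hW_invC VS hcl hne w (fun d => gG ((d : ℚ) ^ 2 * r))] at h3
    exact h3
  have hdX' : D * Real.exp J ≤ X := by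
    refine le_trans ?_ hdX
    have h3 : 0 ≤ D * Real.exp J := by positivity
    nlinarith [mul_nonneg (by nlinarith : 0 ≤ B ^ 2 - 1) h3]
  have hC : 0 ≤ errC σ J X B D := by
    unfold errC
    positivity
  have hT : 0 ≤ errT J X H := by
    unfold errT
    positivity
  have h3 := deltaPos_le_of_IsCPp H (FVc VS (hW VS w) σ J X)
    (Lb + 2 * (VS.card : ℝ) ^ 2 * (errC σ J X B D + errT J X H)) (FVN VS (hW VS w) σ J X H)
    (NCPosB_isCPp VS hcl hne w hw σ J X hX H) (by positivity)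
    (by
      intro x
      have h4 := circle_sharp VS hcl hne (hW VS w) h0 h2 σ hσ J X B D Lb hX hB hD hD1 hdX hsep hLb
        hloc' x
      have h5 := (abs_le.mp (FV_FVN VS hcl hne (hW VS w) h0 h2 σ hσ J X D hX hD hdX' H x)).2
      have h6 : (J : ℝ) * (2 * (1 + X) * Real.exp (-(Real.pi * ((H : ℝ) / X) ^ 2))) =
        errT J X H := rfl
      rw [h6] at h5
      linarith)
    (by
      have h4 := circle_zero VS hcl hne h1 (hW VS w) h0 h2 hh1 σ hσ J hJ X B D hX hB hD hD1 hdX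
      have h5 := (abs_le.mp (FV_FVN VS hcl hne (hW VS w) h0 h2 σ hσ J X D hX hD hdX' H 0)).2
      have h6 : (J : ℝ) * (2 * (1 + X) * Real.exp (-(Real.pi * ((H : ℝ) / X) ^ 2))) =
        errT J X H := rfl
      rw [h6] at h5
      linarith)
  have h4 := FVc_le VS hcl (hW VS w) h0 h2 σ hσ J X D hX hD
  linarith

end Pool.Agent.H.MP_b3c6db_nt
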