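import Pool.Agent.H.MP_b3c6db_nt.Euler

/-! The probability weights on the divisors of `N`.

PROOF of `sum_bet`: induction `Nat.recOnPosPrimePosCoprime` on `n`. For `n = p^k`: the sum is
`∑_{j<k} x^j (1-x) + x^k = 1` (`Nat.sum_divisors_prime_pow`, `Arho_prime_pow`, `p^k/p^j = p^(k-j)`,
`Nat.primeFactors_prime_pow`). For coprime `a, b`: `sum_divisors_coprime` (Delta.lean), `Arho_mul`, and
`bet x (ab/(mn)) = bet x (a/m) bet x (b/n)` (`Nat.mul_div_mul_comm`, `Nat.Coprime.primeFactors_mul`, disjointness).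
PROOF of `sum_ww`: `d = v m` with `m ∣ N/v`, `Arho x (v m) = Arho x v Arho x m`, `N/(v m) = (N/v)/m`, `sum_bet`. -/

namespace Pool.Agent.H.MP_b3c6db_nt

open Finset

noncomputable def bet (x : ℕ → ℝ) (n : ℕ) : ℝ := ∏ p ∈ n.primeFactors, (1 - x p)

/-- the weights -/
noncomputable def ww (x : ℕ → ℝ) (N d : ℕ) : ℝ := Arho x d * bet x (N / d)

lemma ww_nonneg (x : ℕ → ℝ) (hx0 : ∀ p, 0 ≤ x p) (N : ℕ) (hx1 : ∀ p ∈ N.primeFactors, x p ≤ 1)
    (d : ℕ) (hd : d ∣ N) (hN : N ≠ 0) : 0 ≤ ww x N d := by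
  unfold ww
  refine mul_nonneg ?_ ?_
  · unfold Arho
    exact Finset.prod_nonneg fun p _ => pow_nonneg (hx0 p) _
  · unfold bet
    refine Finset.prod_nonneg fun p hp => ?_
    have h1 := hx1 p (Nat.primeFactors_mono (Nat.div_dvd_of_dvd hd) hN hp)
    linarith

private lemma NCWtA_bet_mul (x : ℕ → ℝ) {a b : ℕ} (hab : Nat.Coprime a b) :
    bet x (a * b) = bet x a * bet x b := by
  unfold bet
  rw [Nat.Coprime.primeFactors_mul hab, Finset.prod_union hab.disjoint_primeFactors]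

private lemma NCWtA_bet_pow (x : ℕ → ℝ) {p : ℕ} (hp : p.Prime) {k : ℕ} (hk : k ≠ 0) :
    bet x (p ^ k) = 1 - x p := by
  unfold bet
  rw [Nat.primeFactors_prime_pow hk hp, Finset.prod_singleton]

private lemma NCWtA_bet_one (x : ℕ → ℝ) : bet x 1 = 1 := by
  unfold bet
  simp

theorem sum_bet (x : ℕ → ℝ) (n : ℕ) (hn : n ≠ 0) :
    ∑ m ∈ n.divisors, Arho x m * bet x (n / m) = 1 := by
  induction n using Nat.recOnPosPrimePosCoprime with
  | prime_pow p k hp hk =>
    rw [Nat.sum_divisors_prime_pow hp, Finset.sum_range_succ]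
    have h1 : ∑ j ∈ range k, Arho x (p ^ j) * bet x (p ^ k / p ^ j) =
        ∑ j ∈ range k, x p ^ j * (1 - x p) := by
      refine sum_congr rfl fun j hj => ?_
      rw [mem_range] at hj
      rw [Arho_prime_pow x hp, Nat.pow_div hj.le hp.pos, NCWtA_bet_pow x hp (by omega)]
    rw [h1, ← Finset.sum_mul, geom_sum_mul_neg, Arho_prime_pow x hp,
      Nat.div_self (pow_pos hp.pos k), NCWtA_bet_one]
    ring
  | zero => exact absurd rfl hn
  | one =>
    simp [Arho_one, NCWtA_bet_one]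
  | coprime a b ha hb hab iha ihb =>
    rw [sum_divisors_coprime _ a b hab]
    have h1 : ∀ m ∈ a.divisors, ∀ l ∈ b.divisors,
        Arho x (m * l) * bet x (a * b / (m * l)) =
          (Arho x m * bet x (a / m)) * (Arho x l * bet x (b / l)) := by
      intro m hm l hl
      rw [Nat.mem_divisors] at hm hl
      have hm0 : m ≠ 0 := ne_zero_of_dvd_ne_zero hm.2 hm.1
      have hl0 : l ≠ 0 := ne_zero_of_dvd_ne_zero hl.2 hl.1
      have h2 : a * b / (m * l) = (a / m) * (b / l) := Nat.mul_div_mul_comm hm.1 hl.1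
      have h3 : Nat.Coprime (a / m) (b / l) :=
        Nat.Coprime.coprime_dvd_left (Nat.div_dvd_of_dvd hm.1)
          (Nat.Coprime.coprime_dvd_right (Nat.div_dvd_of_dvd hl.1) hab)
      rw [h2, Arho_mul x hm0 hl0, NCWtA_bet_mul x h3]
      ring
    rw [sum_congr rfl fun m hm => sum_congr rfl fun l hl => h1 m hm l hl]
    rw [← sum_mul_sum, iha (by omega), ihb (by omega), one_mul]

theorem sum_ww (x : ℕ → ℝ) (N v : ℕ) (hN : N ≠ 0) (hv : v ∣ N) :
    ∑ d ∈ N.divisors.filter (fun d => v ∣ d), ww x N d = Arho x v := by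
  have hv0 : v ≠ 0 := ne_zero_of_dvd_ne_zero hN hv
  have hvp : 0 < v := Nat.pos_of_ne_zero hv0
  have hNv : N / v ≠ 0 := (Nat.div_pos (Nat.le_of_dvd (Nat.pos_of_ne_zero hN) hv) hvp).ne'
  have h1 : ∑ d ∈ N.divisors.filter (fun d => v ∣ d), ww x N d =
      ∑ m ∈ (N / v).divisors, Arho x v * (Arho x m * bet x (N / v / m)) := by
    refine Finset.sum_nbij' (fun d => d / v) (fun m => v * m) ?_ ?_ ?_ ?_ ?_
    · intro d hd
      rw [mem_filter, Nat.mem_divisors] at hd
      exact Nat.mem_divisors.2 ⟨Nat.div_dvd_div hd.2 hd.1.1, hNv⟩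
    · intro m hm
      rw [Nat.mem_divisors] at hm
      rw [mem_filter, Nat.mem_divisors]
      refine ⟨⟨?_, hN⟩, Dvd.intro _ rfl⟩
      have h2 := Nat.mul_dvd_mul_left v hm.1
      rwa [Nat.mul_div_cancel' hv] at h2
    · intro d hd
      rw [mem_filter] at hd
      exact Nat.mul_div_cancel' hd.2
    · intro m _
      exact Nat.mul_div_cancel_left m hvp
    · intro d hd
      rw [mem_filter, Nat.mem_divisors] at hd
      obtain ⟨m, rfl⟩ := hd.2
      have hm0 : m ≠ 0 := by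
        rintro rfl
        rw [mul_zero] at hd
        exact hN (Nat.eq_zero_of_zero_dvd hd.1.1)
      show ww x N (v * m) = Arho x v * (Arho x (v * m / v) * bet x (N / v / (v * m / v)))
      rw [Nat.mul_div_cancel_left m hvp, Nat.div_div_eq_div_mul]
      unfold ww
      rw [Arho_mul x hv0 hm0, mul_assoc]
  rw [h1, ← Finset.mul_sum, sum_bet x _ hNv, mul_one]

end Pool.Agent.H.MP_b3c6db_nt
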