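import Pool.Agent.H.MP_b3c6db_nt.PrimeSums

/-! The parameters `x_p`. -/

set_option autoImplicit false

namespace Pool.Agent.H.MP_b3c6db_nt

noncomputable def YY (P : ℝ) : ℝ := Real.log P ^ 8

noncomputable def s0 (P : ℝ) : ℝ := 1 / (1200 * Real.sqrt (YY P) * Real.log (YY P))

noncomputable def xx (P : ℝ) (p : ℕ) : ℝ :=
  if (p : ℝ) ≤ YY P then (p : ℝ) ^ (-(s0 P))
  else if (p : ℝ) ≤ P then 300 * Real.log P / (Real.sqrt p * Real.log p) else 0

noncomputable def ee (P : ℝ) (p : ℕ) : ℝ := 6 * s0 P * Real.log p / Real.sqrt p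

end Pool.Agent.H.MP_b3c6db_nt
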