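import Pool.Agent.H.MP_b3c6db_nt.NC.XDef

/-! The small primes `p ≤ YY P = (log P)^8`.

PROOF of `xx_small`: `x = p^(-s0)`, `s0 log p ≤ s0 log (YY P) = 1/(1200 √(YY P)) ≤ 1/1200` (for `YY P ≥ e`), so
`1 ≥ x ≥ 1 - 1/1200 ≥ 0.99` and `1 - x ≤ s0 log p` (`1 - t ≤ e^{-t}`). `x p - 1 ≥ 0.99 p - 1 ≥ 0.49 p > 0`, hence
`√(2p)/(x p - 1) ≤ √2 √p/(0.49 p) ≤ 3/√p ≤ 6/√p`. `ee ≤ 1/2` because `s0 ≤ 1/1200` and `log p ≤ √p * 2`.
`x p > 1` as `0.99 * 2 > 1`. PROOF of `ee_sum`: `sum_log_sqrt_subset` (PrimeSums.lean):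
`∑ ee ≤ 6 s0 * 3 √(YY P) = 18/(1200 log (YY P)) ≤ 1/100` for `log (YY P) ≥ 1.5`. PROOF of `xx_nonneg`: for `log P ≥ 0`. -/

set_option autoImplicit false

namespace Pool.Agent.H.MP_b3c6db_nt

open Finset Filter

private lemma NCXS_tendsto : Tendsto YY atTop atTop :=
  (tendsto_pow_atTop (by norm_num : (8 : ℕ) ≠ 0)).comp Real.tendsto_log_atTop

private lemma NCXS_ev : ∀ᶠ P : ℝ in atTop, Real.exp 2 ≤ YY P :=
  NCXS_tendsto.eventually_ge_atTop (Real.exp 2)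

private lemma NCXS_base {Y : ℝ} (hY : Real.exp 2 ≤ Y) :
    1 ≤ Real.sqrt Y ∧ 2 ≤ Real.log Y ∧ 1 ≤ Y := by
  have h1 : 1 ≤ Real.exp 2 := Real.one_le_exp (by norm_num)
  have hY1 : 1 ≤ Y := h1.trans hY
  refine ⟨?_, ?_, hY1⟩
  · rw [Real.one_le_sqrt]
    exact hY1
  · rw [Real.le_log_iff_exp_le (by linarith)]
    exact hY

private lemma NCXS_s0 {P : ℝ} (hY : Real.exp 2 ≤ YY P) :
    0 < s0 P ∧ s0 P * Real.log (YY P) ≤ 1 / 1200 ∧ s0 P * Real.sqrt (YY P) ≤ 1 / 2400 := by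
  obtain ⟨h1, h2, h3⟩ := NCXS_base hY
  have h4 : 0 < Real.sqrt (YY P) := by linarith
  have h5 : 0 < Real.log (YY P) := by linarith
  refine ⟨by unfold s0; positivity, ?_, ?_⟩
  · have e : s0 P * Real.log (YY P) = 1 / (1200 * Real.sqrt (YY P)) := by
      unfold s0
      field_simp
    rw [e]
    exact one_div_le_one_div_of_le (by norm_num) (by linarith)
  · have e : s0 P * Real.sqrt (YY P) = 1 / (1200 * Real.log (YY P)) := by
      unfold s0
      field_simp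
    rw [e]
    exact one_div_le_one_div_of_le (by norm_num) (by linarith)

theorem xx_small : ∀ᶠ P : ℝ in atTop, ∀ p : ℕ, p.Prime → (p : ℝ) ≤ YY P →
    99 / 100 ≤ xx P p ∧ xx P p ≤ 1 ∧ 1 < xx P p * p ∧
      (1 - xx P p) * (Real.sqrt (2 * p) / (xx P p * p - 1)) ≤ ee P p ∧ ee P p ≤ 1 / 2 := by
  filter_upwards [NCXS_ev] with P hY p hp hpY
  obtain ⟨h1, h2, h3⟩ := NCXS_base hY
  obtain ⟨g1, g2, g3⟩ := NCXS_s0 hY
  have hp2 : (2 : ℝ) ≤ p := by exact_mod_cast hp.two_le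
  have hp0 : (0 : ℝ) < p := by linarith
  have hlp : 0 < Real.log p := Real.log_pos (by linarith)
  have hlpY : Real.log p ≤ Real.log (YY P) := Real.log_le_log hp0 hpY
  have hx : xx P p = Real.exp (-(s0 P * Real.log p)) := by
    unfold xx
    rw [if_pos hpY, Real.rpow_def_of_pos hp0]
    congr 1
    ring
  have hsl : s0 P * Real.log p ≤ 1 / 1200 :=
    (mul_le_mul_of_nonneg_left hlpY g1.le).trans g2
  have hsl0 : 0 < s0 P * Real.log p := mul_pos g1 hlp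
  have hx1 : 1 - xx P p ≤ s0 P * Real.log p := by
    rw [hx]
    have := Real.add_one_le_exp (-(s0 P * Real.log p))
    linarith
  have hx2 : xx P p ≤ 1 := by
    rw [hx]
    exact Real.exp_le_one_iff.2 (by linarith)
  have hx3 : 99 / 100 ≤ xx P p := by linarith
  have hx4 : 49 / 100 * (p : ℝ) ≤ xx P p * p - 1 := by nlinarith
  have hxp : 0 < xx P p * p - 1 := by linarith
  have hsp : 0 < Real.sqrt p := Real.sqrt_pos.2 hp0
  have hsq : Real.sqrt p * Real.sqrt p = p := Real.mul_self_sqrt hp0.le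
  have hs1 : 1 ≤ Real.sqrt p := by
    rw [Real.one_le_sqrt]
    linarith
  have hs2 : Real.sqrt 2 ≤ 3 / 2 := by
    rw [Real.sqrt_le_left (by norm_num)]
    norm_num
  have hee : s0 P * Real.log p * (6 / Real.sqrt p) = ee P p := by
    unfold ee
    ring
  refine ⟨hx3, hx2, by linarith, ?_, ?_⟩
  · have h5 : Real.sqrt (2 * p) / (xx P p * p - 1) ≤ 6 / Real.sqrt p := by
      rw [Real.sqrt_mul (by norm_num), div_le_div_iff₀ hxp hsp]
      have h6 : Real.sqrt 2 * Real.sqrt p * Real.sqrt p = Real.sqrt 2 * p := by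
        rw [mul_assoc, hsq]
      rw [h6]
      have h7 : Real.sqrt 2 * p ≤ 3 / 2 * p := mul_le_mul_of_nonneg_right hs2 hp0.le
      linarith
    rw [← hee]
    exact mul_le_mul hx1 h5 (by positivity) hsl0.le
  · rw [← hee]
    have h6 : 6 / Real.sqrt p ≤ 6 := by
      rw [div_le_iff₀ hsp]
      linarith
    calc s0 P * Real.log p * (6 / Real.sqrt p) ≤ 1 / 1200 * 6 :=
          mul_le_mul hsl h6 (by positivity) (by norm_num)
      _ ≤ 1 / 2 := by norm_num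

theorem ee_sum : ∀ᶠ P : ℝ in atTop, ∀ S : Finset ℕ, (∀ p ∈ S, p.Prime ∧ (p : ℝ) ≤ YY P) →
    ∑ p ∈ S, ee P p ≤ 1 / 100 := by
  filter_upwards [NCXS_ev] with P hY S hS
  obtain ⟨h1, h2, h3⟩ := NCXS_base hY
  obtain ⟨g1, g2, g3⟩ := NCXS_s0 hY
  have h4 := sum_log_sqrt_subset (YY P) (by linarith) S hS
  have e : ∑ p ∈ S, ee P p = 6 * s0 P * ∑ p ∈ S, Real.log p / Real.sqrt p := by
    rw [Finset.mul_sum]
    refine Finset.sum_congr rfl fun p _ => ?_
    unfold ee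
    ring
  rw [e]
  calc 6 * s0 P * ∑ p ∈ S, Real.log p / Real.sqrt p ≤ 6 * s0 P * (3 * Real.sqrt (YY P)) :=
        mul_le_mul_of_nonneg_left h4 (by positivity)
    _ = 18 * (s0 P * Real.sqrt (YY P)) := by ring
    _ ≤ 18 * (1 / 2400) := by linarith
    _ ≤ 1 / 100 := by norm_num

theorem xx_nonneg : ∀ᶠ P : ℝ in atTop, ∀ p : ℕ, 0 ≤ xx P p := by
  filter_upwards [eventually_ge_atTop (1 : ℝ)] with P hP p
  unfold xx
  split_ifs
  · positivity
  · have h1 : 0 ≤ Real.log P := Real.log_nonneg hP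
    have h2 : 0 ≤ Real.log p := Real.log_natCast_nonneg p
    positivity
  · exact le_rfl

end Pool.Agent.H.MP_b3c6db_nt
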